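import Pool.Agent.H538.S2
import Pool.Graph.R_seed8.Helper923.PPS.BT

set_option autoImplicit false

/-!
# Sieve bounds and integrals of the indicator of a sieved integer part
-/

namespace Pool.Agent.H538.NN

open Finset Filter Topology MeasureTheory
open Pool.Agent.Helper923.PPS

open Classical in
theorem rough_aux {a N R : ℕ} (hR : 1 ≤ R) :
    (((Finset.range N).filter (fun k => ∀ l : ℕ, l.Prime → l ≤ R → ¬ l ∣ a + k)).card : ℝ) ≤
      4 * N / Real.log ((R : ℝ) + 1) + (R : ℝ) ^ 4 := by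
  have hR' : (1 : ℝ) ≤ R := by exact_mod_cast hR
  have hq : (1 : ℕ) = 1 ∨ (1 : ℕ).Prime := Or.inl rfl
  have hq0 : 0 < 1 := one_pos
  have hinj : ∀ x ∈ Finset.range N, ∀ y ∈ Finset.range N,
      (fun k => a + k * 1) x = (fun k => a + k * 1) y → x = y := by
    intro x _ y _ hxy
    simp only at hxy
    omega
  have h1 : (((Finset.range N).filter (fun k => ∀ l : ℕ, l.Prime → l ≤ R → ¬ l ∣ a + k)).card : ℝ) ≤
      (apSieve a 1 N R).siftedSum := by
    have e : (apSieve a 1 N R).siftedSum =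
        (((Finset.range N).filter (fun k => Nat.Coprime (PP 1 R) (a + k * 1))).card : ℝ) := by
      unfold BoundingSieve.siftedSum
      have h0 : (apSieve a 1 N R).support = (Finset.range N).image (fun k => a + k * 1) := rfl
      rw [h0, Finset.sum_image hinj, Finset.card_filter]
      push_cast
      apply Finset.sum_congr rfl
      intro k _
      have h : (apSieve a 1 N R).prodPrimes = PP 1 R := rfl
      have h' : (apSieve a 1 N R).weights (a + k * 1) = 1 := rfl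
      by_cases hc : Nat.Coprime (PP 1 R) (a + k * 1)
      · rw [if_pos hc, if_pos (by rw [h]; exact hc), h']
      · rw [if_neg hc, if_neg (by rw [h]; exact hc)]
    rw [e]
    have h2 : (Finset.range N).filter (fun k => ∀ l : ℕ, l.Prime → l ≤ R → ¬ l ∣ a + k) ⊆
        (Finset.range N).filter (fun k => Nat.Coprime (PP 1 R) (a + k * 1)) := by
      intro k hk
      rw [Finset.mem_filter] at hk ⊢
      refine ⟨hk.1, ?_⟩
      rw [mul_one]
      refine Nat.Coprime.symm (Nat.coprime_of_dvd fun l hl h1 h2 => ?_)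
      rw [prime_dvd_PP hl] at h2
      exact hk.2 l hl h2.1 h1
    exact_mod_cast Finset.card_le_card h2
  have h2 := siftedSum_le_selberg (apSieve a 1 N R) (R : ℝ) hR' 1 zero_le_one
    (fun d hd => apSieve_rem hq0 hd)
  have h3 := selS_ge_log (a := a) (N := N) (R := R) hq
  have hlog : 0 < Real.log ((R : ℝ) + 1) := Real.log_pos (by linarith)
  have h4 : (apSieve a 1 N R).totalMass / selS (apSieve a 1 N R) R ≤
      4 * N / Real.log ((R : ℝ) + 1) := by
    change (N : ℝ) / _ ≤ _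
    have : (N : ℝ) / selS (apSieve a 1 N R) R ≤ (N : ℝ) / (Real.log ((R : ℝ) + 1) / 4) := by
      apply div_le_div_of_nonneg_left (by positivity) (by positivity) h3
    refine this.trans (le_of_eq ?_)
    field_simp
  have h5 : (∑ d ∈ ((apSieve a 1 N R).prodPrimes).divisors.filter (fun d : ℕ => (d : ℝ) ≤ R),
      ((apSieve a 1 N R).nu d)⁻¹) ≤ (R : ℝ) ^ 2 := by
    have h6 : ((apSieve a 1 N R).prodPrimes).divisors.filter (fun d : ℕ => (d : ℝ) ≤ R) ⊆
        Finset.Icc 1 R := by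
      intro d hd
      rw [Finset.mem_filter, Nat.mem_divisors] at hd
      rw [Finset.mem_Icc]
      refine ⟨Nat.pos_of_ne_zero (ne_zero_of_dvd_ne_zero hd.1.2 hd.1.1), by exact_mod_cast hd.2⟩
    calc (∑ d ∈ ((apSieve a 1 N R).prodPrimes).divisors.filter (fun d : ℕ => (d : ℝ) ≤ R),
          ((apSieve a 1 N R).nu d)⁻¹)
        = ∑ d ∈ ((apSieve a 1 N R).prodPrimes).divisors.filter (fun d : ℕ => (d : ℝ) ≤ R),
          (d : ℝ) := by
          apply Finset.sum_congr rfl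
          intro d _
          change ((d : ℝ)⁻¹)⁻¹ = d
          rw [inv_inv]
      _ ≤ ∑ d ∈ Finset.Icc 1 R, (d : ℝ) :=
          Finset.sum_le_sum_of_subset_of_nonneg h6 (fun _ _ _ => by positivity)
      _ ≤ ∑ d ∈ Finset.Icc 1 R, (R : ℝ) := by
          apply Finset.sum_le_sum
          intro d hd
          exact_mod_cast (Finset.mem_Icc.mp hd).2
      _ = (R : ℝ) ^ 2 := by simp; ring
  have h7 : 0 ≤ (∑ d ∈ ((apSieve a 1 N R).prodPrimes).divisors.filter (fun d : ℕ => (d : ℝ) ≤ R),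
      ((apSieve a 1 N R).nu d)⁻¹) := by
    apply Finset.sum_nonneg
    intro d _
    change 0 ≤ ((d : ℝ)⁻¹)⁻¹
    positivity
  have h8 : (∑ d ∈ ((apSieve a 1 N R).prodPrimes).divisors.filter (fun d : ℕ => (d : ℝ) ≤ R),
      ((apSieve a 1 N R).nu d)⁻¹) ^ 2 ≤ (R : ℝ) ^ 4 := by
    calc _ ≤ ((R : ℝ) ^ 2) ^ 2 := by gcongr
      _ = (R : ℝ) ^ 4 := by ring
  linarith

open Classical in
/-- the sieve bound in short intervals -/
theorem rough_up {η : ℝ} (hη : 0 < η) (hη8 : η ≤ 1 / 8) : ∃ C : ℝ, 1 ≤ C ∧ ∀ a N : ℕ, 2 ≤ N → ∀ z : ℝ,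
    (N : ℝ) ^ η ≤ z →
    (((Finset.range N).filter (fun k => ∀ l : ℕ, l.Prime → (l : ℝ) ≤ z → ¬ l ∣ a + k)).card : ℝ) ≤
      C * N / Real.log N := by
  refine ⟨4 / η + 2, by have : 0 < 4 / η := by positivity
                        linarith, fun a N hN z hz => ?_⟩
  have hN' : (2 : ℝ) ≤ N := by exact_mod_cast hN
  have hN0 : (0 : ℝ) < N := by linarith
  have hlogN : 0 < Real.log N := Real.log_pos (by linarith)
  set x : ℝ := (N : ℝ) ^ η with hx
  have hx1 : 1 ≤ x := Real.one_le_rpow (by linarith) hη.le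
  have hR : 1 ≤ ⌊x⌋₊ := Nat.floor_pos.mpr hx1
  have hfl : (⌊x⌋₊ : ℝ) ≤ x := Nat.floor_le (by linarith)
  have hfl2 : x < (⌊x⌋₊ : ℝ) + 1 := Nat.lt_floor_add_one x
  have h := rough_aux (a := a) (N := N) (R := ⌊x⌋₊) hR
  have h0 : (((Finset.range N).filter (fun k => ∀ l : ℕ, l.Prime → (l : ℝ) ≤ z → ¬ l ∣ a + k)).card : ℝ) ≤
      (((Finset.range N).filter (fun k => ∀ l : ℕ, l.Prime → l ≤ ⌊x⌋₊ → ¬ l ∣ a + k)).card : ℝ) := by
    have : (Finset.range N).filter (fun k => ∀ l : ℕ, l.Prime → (l : ℝ) ≤ z → ¬ l ∣ a + k) ⊆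
        (Finset.range N).filter (fun k => ∀ l : ℕ, l.Prime → l ≤ ⌊x⌋₊ → ¬ l ∣ a + k) := by
      intro k hk
      rw [Finset.mem_filter] at hk ⊢
      refine ⟨hk.1, fun l hl hlx => hk.2 l hl ?_⟩
      have : (l : ℝ) ≤ ⌊x⌋₊ := by exact_mod_cast hlx
      linarith
    exact_mod_cast Finset.card_le_card this
  have hlogx : Real.log x = η * Real.log N := by rw [hx, Real.log_rpow hN0]
  have hlog2 : η * Real.log N ≤ Real.log ((⌊x⌋₊ : ℝ) + 1) := by
    rw [← hlogx]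
    exact Real.log_le_log (by linarith) hfl2.le
  have h1 : 4 * (N : ℝ) / Real.log ((⌊x⌋₊ : ℝ) + 1) ≤ 4 / η * (N / Real.log N) := by
    have : 4 * (N : ℝ) / Real.log ((⌊x⌋₊ : ℝ) + 1) ≤ 4 * (N : ℝ) / (η * Real.log N) := by
      apply div_le_div_of_nonneg_left (by positivity) (by positivity) hlog2
    refine this.trans (le_of_eq ?_)
    field_simp
  have hsq : 0 < Real.sqrt N := Real.sqrt_pos.mpr hN0
  have hsq2 : Real.sqrt N * Real.sqrt N = N := Real.mul_self_sqrt hN0.le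
  have hlogsq : Real.log N ≤ 2 * Real.sqrt N := by
    have h1 : Real.log (Real.sqrt N) ≤ Real.sqrt N - 1 := Real.log_le_sub_one_of_pos hsq
    rw [Real.log_sqrt hN0.le] at h1
    linarith
  have hx8 : x ≤ (N : ℝ) ^ ((1 : ℝ) / 8) := Real.rpow_le_rpow_of_exponent_le (by linarith) hη8
  have hx4 : ((N : ℝ) ^ ((1 : ℝ) / 8)) ^ 4 = Real.sqrt N := by
    rw [← Real.rpow_natCast, ← Real.rpow_mul hN0.le, Real.sqrt_eq_rpow]
    norm_num
  have h2 : (⌊x⌋₊ : ℝ) ^ 4 ≤ Real.sqrt N := by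
    rw [← hx4]
    exact pow_le_pow_left₀ (Nat.cast_nonneg _) (hfl.trans hx8) 4
  have h4 : Real.sqrt N ≤ 2 * (N / Real.log N) := by
    rw [mul_div_assoc', le_div_iff₀ hlogN]
    nlinarith
  have e : (4 / η + 2) * (N : ℝ) / Real.log N = 4 / η * (N / Real.log N) + 2 * (N / Real.log N) := by ring
  rw [e]
  linarith

open Classical in
/-- the indicator of the integers all of whose prime factors exceed `z` -/
noncomputable def ri (z : ℝ) (n : ℕ) : ℝ := if ∀ l : ℕ, l.Prime → l ∣ n → z < l then 1 else 0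

lemma ri01 (z : ℝ) (n : ℕ) : ri z n = 0 ∨ ri z n = 1 := by
  unfold ri
  split_ifs
  · exact Or.inr rfl
  · exact Or.inl rfl

lemma ri0 (z : ℝ) (n : ℕ) : 0 ≤ ri z n := by rcases ri01 z n with h | h <;> rw [h]; norm_num

lemma ri1 (z : ℝ) (n : ℕ) : ri z n ≤ 1 := by rcases ri01 z n with h | h <;> rw [h]; norm_num

/-- the indicator of the event that `⌊x a⌋ + c` has no prime factor up to `z` -/
noncomputable def FF (z a : ℝ) (c : ℕ) (x : ℝ) : ℝ := ri z (⌊x * a⌋₊ + c)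

lemma FF01 (z a : ℝ) (c : ℕ) (x : ℝ) : FF z a c x = 0 ∨ FF z a c x = 1 := ri01 _ _
lemma FF0 (z a : ℝ) (c : ℕ) (x : ℝ) : 0 ≤ FF z a c x := ri0 _ _
lemma FF1 (z a : ℝ) (c : ℕ) (x : ℝ) : FF z a c x ≤ 1 := ri1 _ _

lemma FF_meas (z a : ℝ) (c : ℕ) : Measurable (FF z a c) := by
  unfold FF
  exact (measurable_from_top (f := fun n : ℕ => ri z (n + c))).comp
    (Nat.measurable_floor.comp (measurable_id.mul_const a))

lemma intble {g : ℝ → ℝ} (hg : Measurable g) {B : ℝ} (hb : ∀ x, |g x| ≤ B) (x y : ℝ) :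
    IntegrableOn g (Set.Ico x y) volume := by
  refine Measure.integrableOn_of_bounded (M := B) ?_ hg.aestronglyMeasurable ?_
  · rw [Real.volume_Ico]; exact ENNReal.ofReal_ne_top
  · exact Eventually.of_forall fun x => by rw [Real.norm_eq_abs]; exact hb x

lemma FF_abs (z a : ℝ) (c : ℕ) (x : ℝ) : |FF z a c x| ≤ 1 := by
  rw [abs_of_nonneg (FF0 _ _ _ _)]; exact FF1 _ _ _ _

lemma FF_int (z a : ℝ) (c : ℕ) (x y : ℝ) : IntegrableOn (FF z a c) (Set.Ico x y) volume :=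
  intble (FF_meas z a c) (FF_abs z a c) x y

/-- integration over consecutive cells -/
lemma int_blocks {g : ℝ → ℝ} (hg : Measurable g) {B : ℝ} (hb : ∀ x, |g x| ≤ B) {h : ℝ} (hh : 0 < h) (M N : ℕ)
    (hMN : M ≤ N) :
    ∫ x in Set.Ico ((M : ℝ) / h) ((N : ℝ) / h), g x =
      ∑ k ∈ Finset.Ico M N, ∫ x in Set.Ico ((k : ℝ) / h) (((k : ℝ) + 1) / h), g x := by
  induction N, hMN using Nat.le_induction with
  | base => simp
  | succ N hN ih =>
    have h1 : (M : ℝ) / h ≤ N / h := by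
      have : (M : ℝ) ≤ N := by exact_mod_cast hN
      exact div_le_div_of_nonneg_right this hh.le
    have h2 : (N : ℝ) / h ≤ ((N + 1 : ℕ) : ℝ) / h := by
      push_cast
      exact div_le_div_of_nonneg_right (by linarith) hh.le
    rw [← Set.Ico_union_Ico_eq_Ico h1 h2, setIntegral_union ?_ measurableSet_Ico (intble hg hb _ _) (intble hg hb _ _),
      Finset.sum_Ico_succ_top hN, ih]
    · push_cast
      rfl
    · rw [Set.disjoint_left]
      intro x hx hx'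
      exact absurd hx.2 (not_lt.2 hx'.1)

lemma floor_cell {a x : ℝ} (ha : 0 < a) {k : ℕ} (hx : x ∈ Set.Ico ((k : ℝ) / a) (((k : ℝ) + 1) / a)) :
    ⌊x * a⌋₊ = k := by
  rw [Set.mem_Ico, div_le_iff₀ ha, lt_div_iff₀ ha] at hx
  rw [Nat.floor_eq_iff (le_trans (Nat.cast_nonneg k) hx.1)]
  exact hx

lemma int_cell {z a : ℝ} (ha : 0 < a) (c k : ℕ) :
    ∫ x in Set.Ico ((k : ℝ) / a) (((k : ℝ) + 1) / a), FF z a c x = ri z (k + c) / a := by
  have h1 : ∫ x in Set.Ico ((k : ℝ) / a) (((k : ℝ) + 1) / a), FF z a c x =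
      ∫ _ in Set.Ico ((k : ℝ) / a) (((k : ℝ) + 1) / a), ri z (k + c) := by
    refine setIntegral_congr_fun measurableSet_Ico fun x hx => ?_
    show ri z (⌊x * a⌋₊ + c) = _
    rw [floor_cell ha hx]
  rw [h1, setIntegral_const, smul_eq_mul, Measure.real, Real.volume_Ico, ENNReal.toReal_ofReal]
  · field_simp; ring
  · have : (k : ℝ) / a ≤ ((k : ℝ) + 1) / a := div_le_div_of_nonneg_right (by linarith) ha.le
    linarith

lemma int_cells {z a : ℝ} (ha : 0 < a) (c M N : ℕ) (hMN : M ≤ N) :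
    ∫ x in Set.Ico ((M : ℝ) / a) ((N : ℝ) / a), FF z a c x = (∑ n ∈ Finset.Ico M N, ri z (n + c)) / a := by
  rw [int_blocks (FF_meas z a c) (FF_abs z a c) ha M N hMN, Finset.sum_div]
  exact Finset.sum_congr rfl fun k _ => int_cell ha c k

lemma int_up {z a : ℝ} (ha : 0 < a) (c : ℕ) {x y : ℝ} (hx : 0 ≤ x) (hxy : x ≤ y) :
    ∫ t in Set.Ico x y, FF z a c t ≤ (∑ n ∈ Finset.Ico ⌊x * a⌋₊ (⌊y * a⌋₊ + 1), ri z (n + c)) / a := by
  have hfl : ⌊x * a⌋₊ ≤ ⌊y * a⌋₊ + 1 := (Nat.floor_mono (mul_le_mul_of_nonneg_right hxy ha.le)).trans (Nat.le_succ _)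
  rw [← int_cells ha c _ _ hfl]
  refine setIntegral_mono_set (FF_int _ _ _ _ _) (Eventually.of_forall fun t => FF0 _ _ _ _) ?_
  refine LE.le.eventuallyLE ?_
  intro t ht
  rw [Set.mem_Ico] at ht ⊢
  rw [div_le_iff₀ ha, lt_div_iff₀ ha]
  constructor
  · exact (Nat.floor_le (by positivity)).trans (mul_le_mul_of_nonneg_right ht.1 ha.le)
  · push_cast
    exact (mul_lt_mul_of_pos_right ht.2 ha).trans (Nat.lt_floor_add_one _)

lemma int_lo {z a : ℝ} (ha : 0 < a) (c : ℕ) {x y : ℝ} (hx : 0 ≤ x) (hxy : x ≤ y) :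
    (∑ n ∈ Finset.Ico (⌊x * a⌋₊ + 1) ⌊y * a⌋₊, ri z (n + c)) / a ≤ ∫ t in Set.Ico x y, FF z a c t := by
  by_cases hfl : ⌊x * a⌋₊ + 1 ≤ ⌊y * a⌋₊
  · rw [← int_cells ha c _ _ hfl]
    refine setIntegral_mono_set (FF_int _ _ _ _ _) (Eventually.of_forall fun t => FF0 _ _ _ _) ?_
    refine LE.le.eventuallyLE ?_
    intro t ht
    rw [Set.mem_Ico] at ht ⊢
    rw [div_le_iff₀ ha, lt_div_iff₀ ha] at ht
    push_cast at ht
    constructor
    · have h1 := (Nat.lt_floor_add_one (x * a)).trans_le ht.1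
      exact (lt_of_mul_lt_mul_right h1 ha.le).le
    · have h2 : t * a < y * a := ht.2.trans_le (Nat.floor_le (mul_nonneg (hx.trans hxy) ha.le))
      exact lt_of_mul_lt_mul_right h2 ha.le
  · rw [Finset.Ico_eq_empty (by omega), Finset.sum_empty, zero_div]
    exact setIntegral_nonneg measurableSet_Ico fun t _ => FF0 _ _ _ _

lemma DR_sum {z a : ℝ} (ha : 0 < a) (c : ℕ) {x y : ℝ} (hx : 0 ≤ x) (hxy : x ≤ y) :
    ((DR (y * a + c) ((y - x) * a) z).card : ℝ) = ∑ n ∈ Finset.Ioc ⌊x * a⌋₊ ⌊y * a⌋₊, ri z (n + c) := by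
  classical
  unfold DR
  have e1 : y * a + c - (y - x) * a = x * a + c := by ring
  rw [e1, Nat.floor_add_natCast (by positivity), Nat.floor_add_natCast (mul_nonneg (hx.trans hxy) ha.le),
    Finset.card_filter, Nat.cast_sum, ← Finset.image_add_right_Ioc,
    Finset.sum_image (fun p _ q _ h => Nat.add_right_cancel h)]
  refine Finset.sum_congr rfl fun n _ => ?_
  unfold ri
  split_ifs <;> simp

/-- integrals and counts -/
theorem int_DR {z a : ℝ} (ha : 0 < a) (c : ℕ) {x y : ℝ} (hx : 0 ≤ x) (hxy : x ≤ y) :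
    |a * (∫ t in Set.Ico x y, FF z a c t) - (DR (y * a + c) ((y - x) * a) z).card| ≤ 1 := by
  have h1 := int_up (z := z) ha c hx hxy
  have h2 := int_lo (z := z) ha c hx hxy
  rw [DR_sum ha c hx hxy]
  rw [le_div_iff₀ ha] at h1
  rw [div_le_iff₀ ha] at h2
  have hfl : ⌊x * a⌋₊ ≤ ⌊y * a⌋₊ := Nat.floor_mono (mul_le_mul_of_nonneg_right hxy ha.le)
  set m1 := ⌊x * a⌋₊
  set m2 := ⌊y * a⌋₊
  have h3 : ∑ n ∈ Finset.Ico m1 (m2 + 1), ri z (n + c) ≤ (∑ n ∈ Finset.Ioc m1 m2, ri z (n + c)) + 1 := by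
    rw [Finset.sum_eq_sum_Ico_succ_bot (by omega)]
    have e : Finset.Ico (m1 + 1) (m2 + 1) = Finset.Ioc m1 m2 := by
      ext t; simp only [Finset.mem_Ico, Finset.mem_Ioc]; omega
    rw [e]
    have := ri1 z (m1 + c)
    linarith
  have h4 : (∑ n ∈ Finset.Ioc m1 m2, ri z (n + c)) ≤ (∑ n ∈ Finset.Ico (m1 + 1) m2, ri z (n + c)) + 1 := by
    rcases Nat.lt_or_ge m1 m2 with h | h
    · have e : Finset.Ioc m1 m2 = Finset.Ico (m1 + 1) (m2 + 1) := by
        ext t; simp only [Finset.mem_Ico, Finset.mem_Ioc]; omega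
      rw [e, Finset.sum_Ico_succ_top (by omega)]
      have := ri1 z (m2 + c)
      linarith
    · rw [Finset.Ioc_eq_empty (by omega), Finset.sum_empty]
      have : 0 ≤ ∑ n ∈ Finset.Ico (m1 + 1) m2, ri z (n + c) := Finset.sum_nonneg fun n _ => ri0 _ _
      linarith
  rw [abs_le]
  constructor
  · linarith
  · linarith

end Pool.Agent.H538.NN
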