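import Pool.Agent.H538.NN.E1
import Pool.Agent.H538.S5

set_option autoImplicit false

/-!
# Local densities
-/

namespace Pool.Agent.H538.NN

open Finset Filter Topology MeasureTheory
open Pool.Agent.R529.BU (om WW om_ge om_le WW_cont)

/-- the level of the dyadic intervals -/
noncomputable def lev (θ x : ℝ) : ℕ := ⌊θ * Real.log x / Real.log 2⌋₊

lemma two_lev_le {θ x : ℝ} (hθ : 0 ≤ θ) (hx : 0 ≤ Real.log x) : (2 : ℝ) ^ lev θ x ≤ Real.exp (θ * Real.log x) := by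
  have hl2 : 0 < Real.log 2 := Real.log_pos (by norm_num)
  have h1 : (lev θ x : ℝ) ≤ θ * Real.log x / Real.log 2 := Nat.floor_le (by positivity)
  rw [le_div_iff₀ hl2] at h1
  calc (2 : ℝ) ^ lev θ x = Real.exp (lev θ x * Real.log 2) := by
        rw [Real.exp_nat_mul, Real.exp_log (by norm_num)]
    _ ≤ _ := Real.exp_le_exp.2 h1

lemma lt_two_lev {θ x : ℝ} : Real.exp (θ * Real.log x) < 2 * (2 : ℝ) ^ lev θ x := by
  have hl2 : 0 < Real.log 2 := Real.log_pos (by norm_num)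
  have h1 : θ * Real.log x / Real.log 2 < (lev θ x : ℝ) + 1 := Nat.lt_floor_add_one _
  rw [div_lt_iff₀ hl2] at h1
  calc Real.exp (θ * Real.log x) < Real.exp (((lev θ x : ℝ) + 1) * Real.log 2) := Real.exp_lt_exp.2 h1
    _ = 2 * (2 : ℝ) ^ lev θ x := by
        rw [add_mul, Real.exp_add, Real.exp_nat_mul, one_mul, Real.exp_log (by norm_num)]; ring

/-- the local density -/
theorem loc_dens {a : ℕ → ℝ} (hap : ∀ n, 0 < a n) (hL : Tendsto (fun n => Real.log (a n)) atTop atTop) (c : ℕ)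
    {v ε : ℝ} (hv : 1 < v) (hε : 0 < ε) (a0 j : ℕ) (ha0 : 1 ≤ a0) :
    ∃ θ : ℝ, 0 < θ ∧ θ ≤ 1 / 4 ∧ ∃ P : ℕ, ∀ q ≥ P, j ≤ lev θ (a q) ∧ ∀ k : ℕ,
      a0 * 2 ^ (lev θ (a q) - j) ≤ k → k < (a0 + 1) * 2 ^ (lev θ (a q) - j) →
      |2 ^ lev θ (a q) * (∫ x in Set.Ico ((k : ℝ) / 2 ^ lev θ (a q)) (((k : ℝ) + 1) / 2 ^ lev θ (a q)),
        FF (Real.exp (Real.log (a q) / v)) (a q) c x) * Real.log (a q) - WW v| ≤ ε := by
  obtain ⟨θ, κ, hθ, hθ4, hκ, hκ4, hone⟩ := one_term hv (show 0 < ε / 4 by positivity)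
  refine ⟨θ, hθ, hθ4, ?_⟩
  have hc0 : (0 : ℝ) ≤ c := Nat.cast_nonneg c
  have ha0r : (1 : ℝ) ≤ a0 := by exact_mod_cast ha0
  have hD : 0 ≤ Real.log ((a0 : ℝ) + 1 + c) := Real.log_nonneg (by linarith)
  obtain ⟨L0, hL01, hone⟩ := hone _ hD
  have hl2 : 0 < Real.log 2 := Real.log_pos (by norm_num)
  set K := ⌈1 / κ⌉₊ with hK
  have e1 : ∀ᶠ q in atTop, L0 ≤ Real.log (a q) := hL.eventually_ge_atTop L0
  have e2 : ∀ᶠ q in atTop, ((j + K + 1 : ℕ) : ℝ) * Real.log 2 / θ ≤ Real.log (a q) := hL.eventually_ge_atTop _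
  have e3 : ∀ᶠ q in atTop, Real.log (a q) ≤ ε / 4 * Real.exp ((1 - θ) * Real.log (a q)) := by
    have h1 : Tendsto (fun x : ℝ => x * Real.exp (-((1 - θ) * x))) atTop (𝓝 0) := by
      have := Real.tendsto_pow_mul_exp_neg_atTop_nhds_zero 1
      have h2 : Tendsto (fun x : ℝ => (1 - θ) * x) atTop atTop :=
        tendsto_id.const_mul_atTop (by linarith)
      have h3 := (this.comp h2).const_mul (1 / (1 - θ))
      rw [mul_zero] at h3
      refine h3.congr fun x => ?_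
      simp only [Function.comp, pow_one]
      have : (1 - θ) ≠ 0 := by linarith
      field_simp
    have h2 : ∀ᶠ x : ℝ in atTop, x * Real.exp (-((1 - θ) * x)) < ε / 4 :=
      (tendsto_order.1 h1).2 _ (by positivity)
    filter_upwards [hL.eventually h2] with q hq
    rw [Real.exp_neg, ← div_eq_mul_inv, div_lt_iff₀ (Real.exp_pos _)] at hq
    exact hq.le
  obtain ⟨P, hP⟩ := (e1.and (e2.and e3)).exists_forall_of_atTop
  refine ⟨P, fun q hq => ?_⟩
  obtain ⟨g1, g2, g3⟩ := hP q hq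
  set L := Real.log (a q) with hLq
  have hL1 : 1 ≤ L := hL01.trans g1
  have hL0 : 0 < L := by linarith
  have haq := hap q
  have haL : a q = Real.exp L := by rw [hLq, Real.exp_log haq]
  set s := lev θ (a q) with hs
  have hsK : j + K + 1 ≤ s := by
    rw [hs]
    unfold lev
    refine Nat.le_floor ?_
    rw [div_le_iff₀ hθ] at g2
    rw [le_div_iff₀ hl2]
    linarith
  have h2s : (0 : ℝ) < 2 ^ s := by positivity
  have h2sle : (2 : ℝ) ^ s ≤ Real.exp (θ * L) := two_lev_le hθ.le (by rw [← hLq]; exact hL0.le)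
  refine ⟨by omega, fun k hk1 hk2 => ?_⟩
  set z := Real.exp (L / v) with hz
  have hk0 : (0 : ℝ) ≤ k := Nat.cast_nonneg k
  set x : ℝ := (k : ℝ) / 2 ^ s with hx
  set y : ℝ := ((k : ℝ) + 1) / 2 ^ s with hy
  have hx0 : 0 ≤ x := by positivity
  have hxy : x ≤ y := div_le_div_of_nonneg_right (by linarith) h2s.le
  have hYe : (y - x) * a q = a q / 2 ^ s := by rw [hx, hy]; field_simp; ring
  have hY0 : 0 < a q / 2 ^ s := by positivity
  have hYlow : Real.exp ((1 - θ) * L) ≤ a q / 2 ^ s := by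
    rw [le_div_iff₀ h2s]
    calc Real.exp ((1 - θ) * L) * 2 ^ s ≤ Real.exp ((1 - θ) * L) * Real.exp (θ * L) :=
          mul_le_mul_of_nonneg_left h2sle (Real.exp_pos _).le
      _ = a q := by rw [← Real.exp_add, haL]; congr 1; ring
  have hkκ : 1 ≤ κ * (k + 1) := by
    have h1 : (1 : ℝ) / κ ≤ K := Nat.le_ceil _
    have h2 : K ≤ k := by
      have h3 : K ≤ 2 ^ (s - j) := by
        calc K ≤ 2 ^ K := Nat.lt_two_pow_self.le
          _ ≤ 2 ^ (s - j) := Nat.pow_le_pow_right (by norm_num) (by omega)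
      have h4 : 1 * 2 ^ (s - j) ≤ a0 * 2 ^ (s - j) := Nat.mul_le_mul_right _ ha0
      omega
    have h3 : (K : ℝ) ≤ k := by exact_mod_cast h2
    rw [div_le_iff₀ hκ] at h1
    nlinarith
  have hXY : (y - x) * a q ≤ κ * (y * a q + c) := by
    rw [hYe]
    have h1 : a q / 2 ^ s ≤ κ * (y * a q) := by
      rw [hy]
      have h4 : κ * (((k : ℝ) + 1) / 2 ^ s * a q) = (κ * (k + 1)) * (a q / 2 ^ s) := by ring
      rw [h4]
      nlinarith
    have h2 : 0 ≤ κ * c := by positivity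
    rw [mul_add]
    linarith
  have ha1 : 1 ≤ a q := by rw [haL]; exact Real.one_le_exp hL0.le
  have hX : y * a q + c ≤ Real.exp (L + Real.log ((a0 : ℝ) + 1 + c)) := by
    rw [Real.exp_add, ← haL, Real.exp_log (by positivity)]
    have h1 : y ≤ (a0 : ℝ) + 1 := by
      rw [hy, div_le_iff₀ h2s]
      have h3 : k + 1 ≤ (a0 + 1) * 2 ^ s := by
        have h4 : (a0 + 1) * 2 ^ (s - j) ≤ (a0 + 1) * 2 ^ s :=
          Nat.mul_le_mul_left _ (Nat.pow_le_pow_right (by norm_num) (by omega))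
        omega
      exact_mod_cast h3
    have h2 : y * a q ≤ ((a0 : ℝ) + 1) * a q := mul_le_mul_of_nonneg_right h1 haq.le
    nlinarith
  have t1 := hone L g1 (y * a q + c) ((y - x) * a q) (by rw [hYe]; exact hYlow) hXY hX
  have t2 := int_DR (z := z) haq c hx0 hxy
  set I := ∫ t in Set.Ico x y, FF z (a q) c t with hI
  set N : ℝ := ((DR (y * a q + c) ((y - x) * a q) z).card : ℝ) with hN
  rw [hYe] at t1
  set Y := a q / 2 ^ s with hYd
  have hLY : L ≤ ε / 4 * Y := g3.trans (mul_le_mul_of_nonneg_left hYlow (by positivity))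
  have e4 : 2 ^ s * I * L - WW v = (a q * I * L - Y * WW v) / Y := by
    rw [hYd]; field_simp
  rw [e4, abs_div, abs_of_pos hY0, div_le_iff₀ hY0]
  have e5 : a q * I * L - Y * WW v = (a q * I - N) * L + (N * L - Y * WW v) := by ring
  rw [e5]
  refine (abs_add_le _ _).trans ?_
  rw [abs_mul, abs_of_pos hL0]
  have t3 : |a q * I - N| * L ≤ 1 * L := mul_le_mul_of_nonneg_right t2 hL0.le
  linarith

/-- the mean over the dyadic interval of level `s` -/
noncomputable def mm (z a : ℝ) (c s : ℕ) (x : ℝ) : ℝ :=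
  2 ^ s * ∫ t in Set.Ico ((⌊x * 2 ^ s⌋₊ : ℝ) / 2 ^ s) (((⌊x * 2 ^ s⌋₊ : ℝ) + 1) / 2 ^ s), FF z a c t

lemma mm_meas (z a : ℝ) (c s : ℕ) : Measurable (mm z a c s) := by
  unfold mm
  exact (measurable_from_top (f := fun n : ℕ => (2 : ℝ) ^ s *
    ∫ t in Set.Ico ((n : ℝ) / 2 ^ s) (((n : ℝ) + 1) / 2 ^ s), FF z a c t)).comp
    (Nat.measurable_floor.comp (measurable_id.mul_const _))

lemma vol_cell {h : ℝ} (hh : 0 < h) (k : ℝ) : (volume (Set.Ico (k / h) ((k + 1) / h))).toReal = 1 / h := by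
  rw [Real.volume_Ico, ENNReal.toReal_ofReal]
  · field_simp; ring
  · have : k / h ≤ (k + 1) / h := div_le_div_of_nonneg_right (by linarith) hh.le
    linarith

lemma mm0 (z a : ℝ) (c s : ℕ) (x : ℝ) : 0 ≤ mm z a c s x := by
  unfold mm
  exact mul_nonneg (by positivity) (setIntegral_nonneg measurableSet_Ico fun t _ => FF0 _ _ _ _)

lemma mm1 (z a : ℝ) (c s : ℕ) (x : ℝ) : mm z a c s x ≤ 1 := by
  unfold mm
  have h2s : (0 : ℝ) < 2 ^ s := by positivity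
  set k : ℝ := (⌊x * 2 ^ s⌋₊ : ℝ)
  have h1 : ∫ t in Set.Ico (k / 2 ^ s) ((k + 1) / 2 ^ s), FF z a c t ≤
      ∫ _ in Set.Ico (k / 2 ^ s) ((k + 1) / 2 ^ s), (1 : ℝ) :=
    setIntegral_mono_on (FF_int _ _ _ _ _) (by
      refine integrableOn_const ?_
      rw [Real.volume_Ico]; exact ENNReal.ofReal_ne_top) measurableSet_Ico fun t _ => FF1 _ _ _ _
  rw [setIntegral_const, smul_eq_mul, mul_one, Measure.real, vol_cell h2s] at h1
  calc 2 ^ s * _ ≤ 2 ^ s * (1 / 2 ^ s : ℝ) := mul_le_mul_of_nonneg_left h1 h2s.le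
    _ = 1 := by field_simp

lemma mm_cell (z a : ℝ) (c s k : ℕ) {x : ℝ} (hx : x ∈ Set.Ico ((k : ℝ) / 2 ^ s) (((k : ℝ) + 1) / 2 ^ s)) :
    mm z a c s x = 2 ^ s * ∫ t in Set.Ico ((k : ℝ) / 2 ^ s) (((k : ℝ) + 1) / 2 ^ s), FF z a c t := by
  unfold mm
  rw [floor_cell (by positivity) hx]

/-- the index of the dyadic interval -/
lemma idx_mem {a0 j s : ℕ} (hjs : j ≤ s) {x : ℝ} (hx : x ∈ Set.Ico ((a0 : ℝ) / 2 ^ j) (((a0 : ℝ) + 1) / 2 ^ j)) :
    a0 * 2 ^ (s - j) ≤ ⌊x * 2 ^ s⌋₊ ∧ ⌊x * 2 ^ s⌋₊ < (a0 + 1) * 2 ^ (s - j) := by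
  rw [Set.mem_Ico, div_le_iff₀ (by positivity), lt_div_iff₀ (by positivity)] at hx
  have e : (2 : ℝ) ^ s = 2 ^ j * 2 ^ (s - j) := by rw [← pow_add, Nat.add_sub_cancel' hjs]
  have hp : (0 : ℝ) < 2 ^ (s - j) := by positivity
  have hx0 : 0 ≤ x * 2 ^ s := by
    have : (0 : ℝ) ≤ a0 := Nat.cast_nonneg _
    rw [e, ← mul_assoc]
    exact mul_nonneg (this.trans hx.1) hp.le
  constructor
  · refine Nat.le_floor ?_
    push_cast
    rw [e, ← mul_assoc]
    exact mul_le_mul_of_nonneg_right hx.1 hp.le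
  · rw [Nat.floor_lt hx0]
    push_cast
    rw [e, ← mul_assoc]
    exact mul_lt_mul_of_pos_right hx.2 hp

end Pool.Agent.H538.NN
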