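import Pool.Agent.H538.NN.E2

set_option autoImplicit false

/-!
# Covariances of pairs
-/

namespace Pool.Agent.H538.NN

open Finset Filter Topology MeasureTheory

/-- a dyadic interval -/
def Cell (s k : ℕ) : Set ℝ := Set.Ico ((k : ℝ) / 2 ^ s) (((k : ℝ) + 1) / 2 ^ s)

lemma Cell_meas (s k : ℕ) : MeasurableSet (Cell s k) := measurableSet_Ico

lemma mm_abs (z a : ℝ) (c s : ℕ) (x : ℝ) : |mm z a c s x| ≤ 1 := by
  rw [abs_of_nonneg (mm0 _ _ _ _ _)]; exact mm1 _ _ _ _ _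

lemma mm_int (z a : ℝ) (c s : ℕ) (x y : ℝ) : IntegrableOn (mm z a c s) (Set.Ico x y) volume :=
  intble (mm_meas z a c s) (mm_abs z a c s) x y

lemma FFC (z a : ℝ) (c s k : ℕ) : IntegrableOn (FF z a c) (Cell s k) volume := FF_int _ _ _ _ _

lemma mmC (z a : ℝ) (c s s' k : ℕ) : IntegrableOn (mm z a c s) (Cell s' k) volume := mm_int _ _ _ _ _ _

lemma J_blocks {g : ℝ → ℝ} (hg : Measurable g) {B : ℝ} (hb : ∀ x, |g x| ≤ B) {j s : ℕ} (hjs : j ≤ s) (a0 : ℕ) :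
    ∫ x in Cell j a0, g x = ∑ k ∈ Finset.Ico (a0 * 2 ^ (s - j)) ((a0 + 1) * 2 ^ (s - j)), ∫ x in Cell s k, g x := by
  have h := int_blocks hg hb (h := (2 : ℝ) ^ s) (by positivity) (a0 * 2 ^ (s - j)) ((a0 + 1) * 2 ^ (s - j))
    (Nat.mul_le_mul_right _ (by omega))
  have e : (2 : ℝ) ^ s = 2 ^ j * 2 ^ (s - j) := by rw [← pow_add, Nat.add_sub_cancel' hjs]
  have e1 : ((a0 * 2 ^ (s - j) : ℕ) : ℝ) / 2 ^ s = (a0 : ℝ) / 2 ^ j := by
    rw [e]; push_cast; rw [mul_div_mul_right _ _ (by positivity)]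
  have e2 : (((a0 + 1) * 2 ^ (s - j) : ℕ) : ℝ) / 2 ^ s = ((a0 : ℝ) + 1) / 2 ^ j := by
    rw [e]; push_cast; rw [mul_div_mul_right _ _ (by positivity)]
  rw [e1, e2] at h
  exact h

lemma cell_mm (z a : ℝ) (c s k : ℕ) : ∫ x in Cell s k, mm z a c s x = ∫ x in Cell s k, FF z a c x := by
  have h1 : ∫ x in Cell s k, mm z a c s x = ∫ _ in Cell s k, (2 ^ s * ∫ t in Cell s k, FF z a c t) :=
    setIntegral_congr_fun measurableSet_Ico fun x hx => mm_cell z a c s k hx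
  rw [h1, setIntegral_const, smul_eq_mul, Measure.real]
  unfold Cell
  rw [vol_cell (by positivity)]
  have : (2 : ℝ) ^ s ≠ 0 := by positivity
  field_simp

lemma cell_zero (z a : ℝ) (c s k : ℕ) : ∫ x in Cell s k, (FF z a c x - mm z a c s x) = 0 := by
  rw [integral_sub (FFC _ _ _ _ _) (mmC _ _ _ _ _ _), cell_mm, sub_self]

lemma left_mem (s k : ℕ) : (k : ℝ) / 2 ^ s ∈ Cell s k := by
  have h : (0 : ℝ) < 2 ^ s := by positivity
  exact ⟨le_rfl, div_lt_div_of_pos_right (by linarith) h⟩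

lemma floor_coarse {s' s k : ℕ} (h : s' ≤ s) {x : ℝ} (hx : x ∈ Cell s k) : ⌊x * 2 ^ s'⌋₊ = k / 2 ^ (s - s') := by
  have h1 : ⌊x * 2 ^ s⌋₊ = k := floor_cell (by positivity) hx
  have e : x * 2 ^ s' = x * 2 ^ s / ((2 ^ (s - s') : ℕ) : ℝ) := by
    have : (2 : ℝ) ^ s = 2 ^ s' * 2 ^ (s - s') := by rw [← pow_add, Nat.add_sub_cancel' h]
    rw [this]
    push_cast
    field_simp
  rw [e, Nat.floor_div_natCast, h1]

lemma mm_const (z a : ℝ) (c : ℕ) {s' s k : ℕ} (h : s' ≤ s) {x : ℝ} (hx : x ∈ Cell s k) :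
    mm z a c s' x = mm z a c s' ((k : ℝ) / 2 ^ s) := by
  unfold mm
  rw [floor_coarse h hx, floor_coarse h (left_mem s k)]

lemma FF_const (z a : ℝ) (ha : 0 < a) (c : ℕ) {s k : ℕ}
    (hk : ⌊(k : ℝ) / 2 ^ s * a⌋₊ = ⌊((k : ℝ) + 1) / 2 ^ s * a⌋₊) {x : ℝ} (hx : x ∈ Cell s k) :
    FF z a c x = FF z a c ((k : ℝ) / 2 ^ s) := by
  unfold FF
  have h1 : ⌊(k : ℝ) / 2 ^ s * a⌋₊ ≤ ⌊x * a⌋₊ := Nat.floor_mono (mul_le_mul_of_nonneg_right hx.1 ha.le)
  have h2 : ⌊x * a⌋₊ ≤ ⌊((k : ℝ) + 1) / 2 ^ s * a⌋₊ := Nat.floor_mono (mul_le_mul_of_nonneg_right hx.2.le ha.le)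
  have : ⌊x * a⌋₊ = ⌊(k : ℝ) / 2 ^ s * a⌋₊ := by omega
  rw [this]

lemma diff_abs (z a : ℝ) (c s : ℕ) (x : ℝ) : |FF z a c x - mm z a c s x| ≤ 1 := by
  rw [abs_le]
  constructor <;> linarith [FF0 z a c x, FF1 z a c x, mm0 z a c s x, mm1 z a c s x]

lemma prod_meas (z a z' a' : ℝ) (c s s' : ℕ) :
    Measurable (fun x => (FF z' a' c x - mm z' a' c s' x) * (FF z a c x - mm z a c s x)) :=
  ((FF_meas _ _ _).sub (mm_meas _ _ _ _)).mul ((FF_meas _ _ _).sub (mm_meas _ _ _ _))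

lemma prod_abs (z a z' a' : ℝ) (c s s' : ℕ) (x : ℝ) :
    |(FF z' a' c x - mm z' a' c s' x) * (FF z a c x - mm z a c s x)| ≤ 1 := by
  rw [abs_mul]
  exact mul_le_one₀ (diff_abs _ _ _ _ _) (abs_nonneg _) (diff_abs _ _ _ _ _)

/-- one cell -/
lemma cell_far {z a z' a' : ℝ} (ha' : 0 < a') (c s' s k : ℕ) (h : s' ≤ s) {B : ℝ}
    (hB : 2 ^ s * ∫ t in Cell s k, FF z a c t ≤ B) :
    |∫ x in Cell s k, (FF z' a' c x - mm z' a' c s' x) * (FF z a c x - mm z a c s x)| ≤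
      2 * B / 2 ^ s * ((⌊((k : ℝ) + 1) / 2 ^ s * a'⌋₊ : ℝ) - ⌊(k : ℝ) / 2 ^ s * a'⌋₊) := by
  have h2s : (0 : ℝ) < 2 ^ s := by positivity
  have hI0 : 0 ≤ ∫ t in Cell s k, FF z a c t := setIntegral_nonneg measurableSet_Ico fun t _ => FF0 _ _ _ _
  have hB0 : 0 ≤ B := le_trans (by positivity) hB
  have hfl : ⌊(k : ℝ) / 2 ^ s * a'⌋₊ ≤ ⌊((k : ℝ) + 1) / 2 ^ s * a'⌋₊ := by
    refine Nat.floor_mono (mul_le_mul_of_nonneg_right ?_ ha'.le)
    exact div_le_div_of_nonneg_right (by linarith) h2s.le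
  have hIab : IntegrableOn (fun x => |FF z a c x - mm z a c s x|) (Cell s k) volume :=
    ((FF_int z a c _ _).sub (mm_int z a c s _ _)).abs
  by_cases hk : ⌊(k : ℝ) / 2 ^ s * a'⌋₊ = ⌊((k : ℝ) + 1) / 2 ^ s * a'⌋₊
  · have h1 : ∫ x in Cell s k, (FF z' a' c x - mm z' a' c s' x) * (FF z a c x - mm z a c s x) =
        ∫ x in Cell s k, (FF z' a' c ((k : ℝ) / 2 ^ s) - mm z' a' c s' ((k : ℝ) / 2 ^ s)) *
          (FF z a c x - mm z a c s x) := by
      refine setIntegral_congr_fun measurableSet_Ico fun x hx => ?_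
      show (FF z' a' c x - mm z' a' c s' x) * _ = _
      rw [FF_const z' a' ha' c hk hx, mm_const z' a' c h hx]
    rw [h1, integral_const_mul, cell_zero, mul_zero, abs_zero, hk, sub_self, mul_zero]
  · have h1 : (1 : ℝ) ≤ (⌊((k : ℝ) + 1) / 2 ^ s * a'⌋₊ : ℝ) - ⌊(k : ℝ) / 2 ^ s * a'⌋₊ := by
      have : ⌊(k : ℝ) / 2 ^ s * a'⌋₊ + 1 ≤ ⌊((k : ℝ) + 1) / 2 ^ s * a'⌋₊ := by omega
      have : ((⌊(k : ℝ) / 2 ^ s * a'⌋₊ : ℝ)) + 1 ≤ ⌊((k : ℝ) + 1) / 2 ^ s * a'⌋₊ := by exact_mod_cast this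
      linarith
    have h2 : |∫ x in Cell s k, (FF z' a' c x - mm z' a' c s' x) * (FF z a c x - mm z a c s x)| ≤
        ∫ x in Cell s k, |FF z a c x - mm z a c s x| := by
      refine abs_integral_le_integral_abs.trans ?_
      refine setIntegral_mono_on ?_ hIab measurableSet_Ico fun x _ => ?_
      · refine (intble (B := 1) ?_ ?_ _ _).abs
        · exact ((FF_meas _ _ _).sub (mm_meas _ _ _ _)).mul ((FF_meas _ _ _).sub (mm_meas _ _ _ _))
        · intro x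
          rw [abs_mul]
          exact mul_le_one₀ (diff_abs _ _ _ _ _) (abs_nonneg _) (diff_abs _ _ _ _ _)
      · rw [abs_mul]
        exact mul_le_of_le_one_left (abs_nonneg _) (diff_abs _ _ _ _ _)
    have h3 : ∫ x in Cell s k, |FF z a c x - mm z a c s x| ≤ ∫ x in Cell s k, (FF z a c x + mm z a c s x) := by
      refine setIntegral_mono_on hIab ((FF_int _ _ _ _ _).add (mm_int _ _ _ _ _ _)) measurableSet_Ico fun x _ => ?_
      rw [abs_le]
      constructor <;> linarith [FF0 z a c x, mm0 z a c s x]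
    rw [integral_add (FFC _ _ _ _ _) (mmC _ _ _ _ _ _), cell_mm] at h3
    have h4 : (∫ x in Cell s k, FF z a c x) + ∫ x in Cell s k, FF z a c x ≤ 2 * B / 2 ^ s := by
      rw [le_div_iff₀ h2s]; linarith
    refine (h2.trans (h3.trans h4)).trans ?_
    exact le_mul_of_one_le_right (by positivity) h1

/-- far pairs -/
theorem far_pair {z a z' a' : ℝ} (ha' : 0 < a') (c s' s j a0 : ℕ) (hjs : j ≤ s) (h : s' ≤ s) {B : ℝ}
    (hB : ∀ k : ℕ, a0 * 2 ^ (s - j) ≤ k → k < (a0 + 1) * 2 ^ (s - j) → 2 ^ s * ∫ t in Cell s k, FF z a c t ≤ B) :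
    |∫ x in Cell j a0, (FF z' a' c x - mm z' a' c s' x) * (FF z a c x - mm z a c s x)| ≤
      2 * B / 2 ^ s * (((a0 : ℝ) + 1) * a') := by
  have h2s : (0 : ℝ) < 2 ^ s := by positivity
  set M := a0 * 2 ^ (s - j) with hM
  set N := (a0 + 1) * 2 ^ (s - j) with hN
  have hp : 0 < 2 ^ (s - j) := by positivity
  have hMN : M < N := by rw [hM, hN]; exact Nat.mul_lt_mul_of_pos_right (by omega) hp
  have hB0 : 0 ≤ B := by
    refine le_trans ?_ (hB M le_rfl hMN)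
    exact mul_nonneg h2s.le (setIntegral_nonneg measurableSet_Ico fun t _ => FF0 _ _ _ _)
  rw [J_blocks (prod_meas z a z' a' c s s') (prod_abs z a z' a' c s s') hjs a0]
  refine (Finset.abs_sum_le_sum_abs _ _).trans ?_
  have h1 : ∀ k ∈ Finset.Ico M N,
      |∫ x in Cell s k, (FF z' a' c x - mm z' a' c s' x) * (FF z a c x - mm z a c s x)| ≤
      2 * B / 2 ^ s * ((⌊((k + 1 : ℕ) : ℝ) / 2 ^ s * a'⌋₊ : ℝ) - ⌊(k : ℝ) / 2 ^ s * a'⌋₊) := by
    intro k hk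
    rw [Finset.mem_Ico] at hk
    have := cell_far (z' := z') ha' c s' s k h (hB k hk.1 hk.2)
    push_cast
    exact this
  refine (Finset.sum_le_sum h1).trans ?_
  rw [← Finset.mul_sum, Finset.sum_Ico_sub (fun k : ℕ => (⌊(k : ℝ) / 2 ^ s * a'⌋₊ : ℝ)) hMN.le]
  refine mul_le_mul_of_nonneg_left ?_ (by positivity)
  have h2 : (⌊(N : ℝ) / 2 ^ s * a'⌋₊ : ℝ) ≤ (N : ℝ) / 2 ^ s * a' := Nat.floor_le (by positivity)
  have h3 : (N : ℝ) / 2 ^ s ≤ (a0 : ℝ) + 1 := by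
    rw [div_le_iff₀ h2s, hN]
    push_cast
    exact mul_le_mul_of_nonneg_left (pow_le_pow_right₀ (by norm_num) (by omega)) (by positivity)
  have h4 : (0 : ℝ) ≤ (⌊(M : ℝ) / 2 ^ s * a'⌋₊ : ℝ) := Nat.cast_nonneg _
  have h5 : (N : ℝ) / 2 ^ s * a' ≤ ((a0 : ℝ) + 1) * a' := mul_le_mul_of_nonneg_right h3 ha'.le
  linarith

lemma vol_J (j a0 : ℕ) : (volume (Cell j a0)).toReal ≤ 1 := by
  unfold Cell
  rw [vol_cell (by positivity)]
  rw [div_le_one (by positivity)]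
  exact one_le_pow₀ (by norm_num)

lemma J_mm (z a : ℝ) (c : ℕ) {s j : ℕ} (hjs : j ≤ s) (a0 : ℕ) :
    ∫ x in Cell j a0, mm z a c s x = ∫ x in Cell j a0, FF z a c x := by
  rw [J_blocks (mm_meas z a c s) (mm_abs z a c s) hjs a0, J_blocks (FF_meas z a c) (FF_abs z a c) hjs a0]
  exact Finset.sum_congr rfl fun k _ => cell_mm z a c s k

lemma mm_le_on {z a : ℝ} {c s j a0 : ℕ} (hjs : j ≤ s) {B : ℝ}
    (hB : ∀ k : ℕ, a0 * 2 ^ (s - j) ≤ k → k < (a0 + 1) * 2 ^ (s - j) → 2 ^ s * ∫ t in Cell s k, FF z a c t ≤ B)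
    {x : ℝ} (hx : x ∈ Cell j a0) : mm z a c s x ≤ B := by
  obtain ⟨h1, h2⟩ := idx_mem hjs hx
  exact hB _ h1 h2

lemma const_J {B : ℝ} (hB : 0 ≤ B) (j a0 : ℕ) : ∫ _ in Cell j a0, B ≤ B := by
  rw [setIntegral_const, smul_eq_mul, Measure.real]
  exact mul_le_of_le_one_left hB (vol_J j a0)

lemma const_int (B : ℝ) (x y : ℝ) : IntegrableOn (fun _ : ℝ => B) (Set.Ico x y) volume := by
  refine integrableOn_const ?_
  rw [Real.volume_Ico]; exact ENNReal.ofReal_ne_top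

lemma FF_J_le {z a : ℝ} {c s j a0 : ℕ} (hjs : j ≤ s) {B : ℝ} (hB0 : 0 ≤ B)
    (hB : ∀ k : ℕ, a0 * 2 ^ (s - j) ≤ k → k < (a0 + 1) * 2 ^ (s - j) → 2 ^ s * ∫ t in Cell s k, FF z a c t ≤ B) :
    ∫ x in Cell j a0, FF z a c x ≤ B := by
  rw [← J_mm z a c hjs a0]
  refine le_trans ?_ (const_J hB0 j a0)
  exact setIntegral_mono_on (mm_int _ _ _ _ _ _) (const_int _ _ _) measurableSet_Ico fun x hx => mm_le_on hjs hB hx

/-- near pairs, reduction to the joint integral -/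
theorem near_pair' {z a z' a' : ℝ} (c s' s j a0 : ℕ) (hjs : j ≤ s) (hjs' : j ≤ s') {B B' : ℝ} (hB0 : 0 ≤ B)
    (hB0' : 0 ≤ B')
    (hB : ∀ k : ℕ, a0 * 2 ^ (s - j) ≤ k → k < (a0 + 1) * 2 ^ (s - j) → 2 ^ s * ∫ t in Cell s k, FF z a c t ≤ B)
    (hB' : ∀ k : ℕ, a0 * 2 ^ (s' - j) ≤ k → k < (a0 + 1) * 2 ^ (s' - j) →
      2 ^ s' * ∫ t in Cell s' k, FF z' a' c t ≤ B') :
    |∫ x in Cell j a0, (FF z' a' c x - mm z' a' c s' x) * (FF z a c x - mm z a c s x)| ≤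
      (∫ x in Cell j a0, FF z' a' c x * FF z a c x) + 3 * (B * B') := by
  have hFF : IntegrableOn (fun x => FF z' a' c x * FF z a c x) (Cell j a0) volume :=
    intble (B := 1) ((FF_meas _ _ _).mul (FF_meas _ _ _)) (fun x => by
      show |FF z' a' c x * FF z a c x| ≤ 1
      rw [abs_mul]
      exact mul_le_one₀ (FF_abs _ _ _ _) (abs_nonneg _) (FF_abs _ _ _ _)) _ _
  have hi1 : IntegrableOn (fun x => B * FF z' a' c x) (Cell j a0) volume := (FF_int _ _ _ _ _).const_mul B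
  have hi2 : IntegrableOn (fun x => B' * FF z a c x) (Cell j a0) volume := (FF_int _ _ _ _ _).const_mul B'
  have h1 : |∫ x in Cell j a0, (FF z' a' c x - mm z' a' c s' x) * (FF z a c x - mm z a c s x)| ≤
      ∫ x in Cell j a0, (FF z' a' c x * FF z a c x + B * FF z' a' c x + B' * FF z a c x + B * B') := by
    refine abs_integral_le_integral_abs.trans ?_
    refine setIntegral_mono_on ?_ (((hFF.add hi1).add hi2).add (const_int _ _ _)) measurableSet_Ico fun x hx => ?_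
    · refine (intble (B := 1) ?_ ?_ _ _).abs
      · exact ((FF_meas _ _ _).sub (mm_meas _ _ _ _)).mul ((FF_meas _ _ _).sub (mm_meas _ _ _ _))
      · intro x
        rw [abs_mul]
        exact mul_le_one₀ (diff_abs _ _ _ _ _) (abs_nonneg _) (diff_abs _ _ _ _ _)
    · have b1 := mm_le_on hjs hB hx
      have b2 := mm_le_on hjs' hB' hx
      have f0 := FF0 z a c x
      have f0' := FF0 z' a' c x
      have m0 := mm0 z a c s x
      have m0' := mm0 z' a' c s' x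
      have p1 : FF z' a' c x * mm z a c s x ≤ FF z' a' c x * B := mul_le_mul_of_nonneg_left b1 f0'
      have p2 : mm z' a' c s' x * FF z a c x ≤ B' * FF z a c x := mul_le_mul_of_nonneg_right b2 f0
      have p3 : mm z' a' c s' x * mm z a c s x ≤ B' * B := mul_le_mul b2 b1 m0 hB0'
      have p4 : 0 ≤ FF z' a' c x * mm z a c s x := mul_nonneg f0' m0
      have p5 : 0 ≤ mm z' a' c s' x * FF z a c x := mul_nonneg m0' f0
      have p6 : 0 ≤ mm z' a' c s' x * mm z a c s x := mul_nonneg m0' m0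
      have p7 : 0 ≤ FF z' a' c x * FF z a c x := mul_nonneg f0' f0
      rw [abs_le]
      constructor <;> nlinarith
  refine h1.trans ?_
  have q1 : ∫ x in Cell j a0, (FF z' a' c x * FF z a c x + B * FF z' a' c x + B' * FF z a c x + B * B') =
      (∫ x in Cell j a0, (FF z' a' c x * FF z a c x + B * FF z' a' c x + B' * FF z a c x)) +
        ∫ _ in Cell j a0, B * B' := integral_add ((hFF.add hi1).add hi2) (const_int _ _ _)
  have q2 : ∫ x in Cell j a0, (FF z' a' c x * FF z a c x + B * FF z' a' c x + B' * FF z a c x) =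
      (∫ x in Cell j a0, (FF z' a' c x * FF z a c x + B * FF z' a' c x)) +
        ∫ x in Cell j a0, B' * FF z a c x := integral_add (hFF.add hi1) hi2
  have q3 : ∫ x in Cell j a0, (FF z' a' c x * FF z a c x + B * FF z' a' c x) =
      (∫ x in Cell j a0, FF z' a' c x * FF z a c x) +
        ∫ x in Cell j a0, B * FF z' a' c x := integral_add hFF hi1
  rw [q1, q2, q3, integral_const_mul, integral_const_mul]
  have k1 := FF_J_le hjs hB0 hB
  have k2 := FF_J_le hjs' hB0' hB'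
  have k3 := const_J (mul_nonneg hB0 hB0') j a0
  have k4 : B * ∫ x in Cell j a0, FF z' a' c x ≤ B * B' := mul_le_mul_of_nonneg_left k2 hB0
  have k5 : B' * ∫ x in Cell j a0, FF z a c x ≤ B' * B := mul_le_mul_of_nonneg_left k1 hB0'
  linarith

/-- the diagonal -/
theorem diag {z a : ℝ} (c s j a0 : ℕ) (hjs : j ≤ s) {B : ℝ} (hB0 : 0 ≤ B)
    (hB : ∀ k : ℕ, a0 * 2 ^ (s - j) ≤ k → k < (a0 + 1) * 2 ^ (s - j) → 2 ^ s * ∫ t in Cell s k, FF z a c t ≤ B) :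
    ∫ x in Cell j a0, (FF z a c x - mm z a c s x) ^ 2 ≤ 2 * B := by
  have h1 : ∫ x in Cell j a0, (FF z a c x - mm z a c s x) ^ 2 ≤ ∫ x in Cell j a0, (FF z a c x + mm z a c s x) := by
    refine setIntegral_mono_on ?_ ((FF_int _ _ _ _ _).add (mm_int _ _ _ _ _ _)) measurableSet_Ico fun x _ => ?_
    · refine intble (B := 1) (((FF_meas _ _ _).sub (mm_meas _ _ _ _)).pow_const 2) (fun x => ?_) _ _
      rw [abs_pow]
      exact pow_le_one₀ (abs_nonneg _) (diff_abs _ _ _ _ _)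
    · have f0 := FF0 z a c x
      have f1 := FF1 z a c x
      have m0 := mm0 z a c s x
      have m1 := mm1 z a c s x
      nlinarith [mul_nonneg f0 m0, mul_nonneg f0 (sub_nonneg.2 f1), mul_nonneg m0 (sub_nonneg.2 m1)]
  rw [integral_add (FFC _ _ _ _ _) (mmC _ _ _ _ _ _)] at h1
  have h2 := FF_J_le hjs hB0 hB
  have h3 := J_mm z a c hjs a0
  linarith

end Pool.Agent.H538.NN
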