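import Pool.Agent.H538.NN.E3

set_option autoImplicit false

/-!
# The joint integral
-/

namespace Pool.Agent.H538.NN

open Finset Filter Topology MeasureTheory

lemma pow_le_z {η v M a : ℝ} (hη : η ≤ 1 / (2 * v)) (hη0 : 0 < η) (hM0 : 0 < M) (ha : 1 ≤ a) (hM : M ≤ a ^ 2) :
    M ^ η ≤ Real.exp (Real.log a / v) := by
  have ha0 : 0 < a := by linarith
  have hl : 0 ≤ Real.log a := Real.log_nonneg ha
  rw [Real.rpow_def_of_pos hM0, Real.exp_le_exp]
  have h1 : Real.log M ≤ 2 * Real.log a := by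
    calc Real.log M ≤ Real.log (a ^ 2) := Real.log_le_log hM0 hM
      _ = 2 * Real.log a := by rw [Real.log_pow]; norm_num
  calc Real.log M * η ≤ 2 * Real.log a * η := mul_le_mul_of_nonneg_right h1 hη0.le
    _ ≤ 2 * Real.log a * (1 / (2 * v)) := mul_le_mul_of_nonneg_left hη (by positivity)
    _ = Real.log a / v := by ring

lemma sum_bound {η Cs : ℝ} (hs : ∀ a N : ℕ, 2 ≤ N → ∀ z : ℝ, (N : ℝ) ^ η ≤ z → ∀ [DecidablePred fun k : ℕ => ∀ l : ℕ, l.Prime → (l : ℝ) ≤ z → ¬ l ∣ a + k],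
    (((Finset.range N).filter (fun k => ∀ l : ℕ, l.Prime → (l : ℝ) ≤ z → ¬ l ∣ a + k)).card : ℝ) ≤
      Cs * N / Real.log N) {z a x y : ℝ} (ha : 0 < a) (hx : 0 ≤ x) (hxy : x ≤ y) (c M : ℕ)
    (hM : (y - x) * a + 2 ≤ M) (hM2 : 2 ≤ M) (hz : (M : ℝ) ^ η ≤ z) :
    ∑ n ∈ Finset.Ico ⌊x * a⌋₊ (⌊y * a⌋₊ + 1), ri z (n + c) ≤ Cs * M / Real.log M := by
  classical
  refine le_trans ?_ (hs (⌊x * a⌋₊ + c) M hM2 z hz)
  rw [Finset.sum_Ico_eq_sum_range, Finset.card_filter, Nat.cast_sum]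
  have hlen : ⌊y * a⌋₊ + 1 - ⌊x * a⌋₊ ≤ M := by
    have h1 : (⌊y * a⌋₊ : ℝ) ≤ y * a := Nat.floor_le (mul_nonneg (hx.trans hxy) ha.le)
    have h2 : x * a < (⌊x * a⌋₊ : ℝ) + 1 := Nat.lt_floor_add_one _
    have h3 : (⌊y * a⌋₊ : ℝ) + 1 ≤ M + ⌊x * a⌋₊ := by linarith
    have h4 : ⌊y * a⌋₊ + 1 ≤ M + ⌊x * a⌋₊ := by exact_mod_cast h3
    omega
  refine (Finset.sum_le_sum_of_subset_of_nonneg (Finset.range_mono hlen) fun k _ _ => ri0 _ _).trans ?_
  refine Finset.sum_le_sum fun k _ => ?_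
  have e : ⌊x * a⌋₊ + k + c = ⌊x * a⌋₊ + c + k := by ring
  rw [e]
  unfold ri
  by_cases h : ∀ l : ℕ, l.Prime → l ∣ ⌊x * a⌋₊ + c + k → z < l
  · rw [if_pos h, if_pos]
    · norm_num
    · intro l hl hlz hd
      have := h l hl hd
      linarith
  · rw [if_neg h]
    split_ifs <;> norm_num

/-- **The joint integral.** -/
theorem near_int {v : ℝ} (hv : 1 < v) : ∃ C : ℝ, 0 < C ∧ ∀ (a a' : ℝ) (c j a0 : ℕ), 4 ≤ a' → 2 * a' ≤ a →
    ∫ x in Cell j a0, FF (Real.exp (Real.log a' / v)) a' c x * FF (Real.exp (Real.log a / v)) a c x ≤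
      C / (Real.log a' * Real.log (a / a')) := by
  classical
  set η : ℝ := min (1 / 8) (1 / (2 * v)) with hη
  have hη0 : 0 < η := by
    have : 0 < 2 * v := by linarith
    rw [hη]; positivity
  obtain ⟨Cs, hCs, hs0⟩ := rough_up hη0 (min_le_left _ _)
  have hs : ∀ a N : ℕ, 2 ≤ N → ∀ z : ℝ, (N : ℝ) ^ η ≤ z → ∀ [DecidablePred fun k : ℕ => ∀ l : ℕ, l.Prime → (l : ℝ) ≤ z → ¬ l ∣ a + k],
    (((Finset.range N).filter (fun k => ∀ l : ℕ, l.Prime → (l : ℝ) ≤ z → ¬ l ∣ a + k)).card : ℝ) ≤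
      Cs * N / Real.log N := by
    intro a N hN z hz inst
    have := hs0 a N hN z hz
    convert this
  refine ⟨16 * Cs ^ 2, by positivity, fun a a' c j a0 ha4 haa => ?_⟩
  have ha'0 : 0 < a' := by linarith
  have ha0' : 0 < a := by linarith
  have ha1 : 1 ≤ a := by linarith
  set r : ℝ := a / a' with hr
  have hr2 : 2 ≤ r := by rw [hr, le_div_iff₀ ha'0]; exact haa
  have hr0 : 0 < r := by linarith
  have hlr : 0 < Real.log r := Real.log_pos (by linarith)
  have hla' : 0 < Real.log a' := Real.log_pos (by linarith)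
  have hra : r ≤ a := by
    rw [hr, div_le_iff₀ ha'0]
    nlinarith
  set z' := Real.exp (Real.log a' / v) with hz'
  set z := Real.exp (Real.log a / v) with hz
  set x0 : ℝ := (a0 : ℝ) / 2 ^ j with hx0
  set x1 : ℝ := ((a0 : ℝ) + 1) / 2 ^ j with hx1
  have hx00 : 0 ≤ x0 := by positivity
  have hx01 : x0 ≤ x1 := div_le_div_of_nonneg_right (by linarith) (by positivity)
  have hx11 : x1 - x0 ≤ 1 := by
    have e : x1 - x0 = 1 / 2 ^ j := by rw [hx0, hx1]; ring
    rw [e, div_le_one (by positivity)]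
    exact one_le_pow₀ (by norm_num)
  set m1 := ⌊x0 * a'⌋₊ with hm1
  set m2 := ⌊x1 * a'⌋₊ with hm2
  have hm12 : m1 ≤ m2 + 1 := (Nat.floor_mono (mul_le_mul_of_nonneg_right hx01 ha'0.le)).trans (Nat.le_succ _)
  have hgm : Measurable (fun x => FF z' a' c x * FF z a c x) := (FF_meas _ _ _).mul (FF_meas _ _ _)
  have hgb : ∀ x, |FF z' a' c x * FF z a c x| ≤ 1 := fun x => by
    rw [abs_mul]
    exact mul_le_one₀ (FF_abs _ _ _ _) (abs_nonneg _) (FF_abs _ _ _ _)
  -- step 1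
  have s1 : ∫ x in Cell j a0, FF z' a' c x * FF z a c x ≤
      ∫ x in Set.Ico ((m1 : ℝ) / a') (((m2 + 1 : ℕ) : ℝ) / a'), FF z' a' c x * FF z a c x := by
    refine setIntegral_mono_set (intble hgm hgb _ _)
      (Eventually.of_forall fun t => mul_nonneg (FF0 _ _ _ _) (FF0 _ _ _ _)) ?_
    refine LE.le.eventuallyLE ?_
    intro t ht
    have ht' : x0 ≤ t ∧ t < x1 := ht
    show t ∈ Set.Ico _ _
    rw [Set.mem_Ico, div_le_iff₀ ha'0, lt_div_iff₀ ha'0]
    constructor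
    · exact (Nat.floor_le (by positivity)).trans (mul_le_mul_of_nonneg_right ht'.1 ha'0.le)
    · push_cast
      exact (mul_lt_mul_of_pos_right ht'.2 ha'0).trans (Nat.lt_floor_add_one _)
  rw [int_blocks hgm hgb ha'0 m1 (m2 + 1) hm12] at s1
  -- the short intervals
  have s3 : ∀ n : ℕ, ∫ x in Set.Ico ((n : ℝ) / a') (((n : ℝ) + 1) / a'), FF z a c x ≤
      4 * Cs / (a' * Real.log r) := by
    intro n
    have g1 : (n : ℝ) / a' ≤ ((n : ℝ) + 1) / a' := div_le_div_of_nonneg_right (by linarith) ha'0.le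
    have g2 := int_up (z := z) ha0' c (show 0 ≤ (n : ℝ) / a' by positivity) g1
    have g3 : (((n : ℝ) + 1) / a' - (n : ℝ) / a') * a = r := by rw [hr]; field_simp; ring
    set M := ⌊r⌋₊ + 3 with hM
    have hM1 : r + 2 ≤ M := by
      have := Nat.lt_floor_add_one r
      rw [hM]; push_cast; linarith
    have hM3 : (M : ℝ) ≤ r + 3 := by
      have := Nat.floor_le hr0.le
      rw [hM]; push_cast; linarith
    have hM4 : (M : ℝ) ≤ 4 * r := by linarith
    have hM0 : (0 : ℝ) < M := by linarith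
    have hMz : (M : ℝ) ^ η ≤ z := by
      refine pow_le_z (min_le_right _ _) hη0 hM0 ha1 ?_
      nlinarith
    have g4 := sum_bound hs (z := z) ha0' (show 0 ≤ (n : ℝ) / a' by positivity) g1 c M (by rw [g3]; exact hM1)
      (by omega) hMz
    refine g2.trans ((div_le_div_of_nonneg_right g4 ha0'.le).trans ?_)
    have hlM : Real.log r ≤ Real.log M := Real.log_le_log hr0 (by linarith)
    have g5 : Cs * M / Real.log M ≤ Cs * (4 * r) / Real.log r :=
      div_le_div₀ (by positivity) (mul_le_mul_of_nonneg_left hM4 (by positivity)) hlr hlM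
    refine (div_le_div_of_nonneg_right g5 ha0'.le).trans (le_of_eq ?_)
    have : a = r * a' := by rw [hr]; field_simp
    rw [this]
    field_simp
  have s2 : ∀ n : ℕ, ∫ x in Set.Ico ((n : ℝ) / a') (((n : ℝ) + 1) / a'), FF z' a' c x * FF z a c x ≤
      ri z' (n + c) * (4 * Cs / (a' * Real.log r)) := by
    intro n
    have e1 : ∫ x in Set.Ico ((n : ℝ) / a') (((n : ℝ) + 1) / a'), FF z' a' c x * FF z a c x =
        ∫ x in Set.Ico ((n : ℝ) / a') (((n : ℝ) + 1) / a'), ri z' (n + c) * FF z a c x := by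
      refine setIntegral_congr_fun measurableSet_Ico fun x hx => ?_
      show ri z' (⌊x * a'⌋₊ + c) * FF z a c x = _
      rw [floor_cell ha'0 hx]
    rw [e1, integral_const_mul]
    exact mul_le_mul_of_nonneg_left (s3 n) (ri0 _ _)
  have s4 : ∑ n ∈ Finset.Ico m1 (m2 + 1), ri z' (n + c) ≤ 4 * Cs * a' / Real.log a' := by
    set M := ⌊a'⌋₊ + 3 with hM
    have hM1 : a' + 2 ≤ M := by
      have := Nat.lt_floor_add_one a'
      rw [hM]; push_cast; linarith
    have hM3 : (M : ℝ) ≤ a' + 3 := by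
      have := Nat.floor_le ha'0.le
      rw [hM]; push_cast; linarith
    have hM4 : (M : ℝ) ≤ 4 * a' := by linarith
    have hM0 : (0 : ℝ) < M := by linarith
    have hMz : (M : ℝ) ^ η ≤ z' := by
      refine pow_le_z (min_le_right _ _) hη0 hM0 (by linarith) ?_
      nlinarith
    have g4 := sum_bound hs (z := z') ha'0 hx00 hx01 c M (by nlinarith) (by omega) hMz
    refine g4.trans ?_
    have hlM : Real.log a' ≤ Real.log M := Real.log_le_log ha'0 (by linarith)
    have g5 : Cs * M / Real.log M ≤ Cs * (4 * a') / Real.log a' :=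
      div_le_div₀ (by positivity) (mul_le_mul_of_nonneg_left hM4 (by positivity)) hla' hlM
    refine g5.trans (le_of_eq ?_)
    ring
  refine s1.trans ((Finset.sum_le_sum fun n _ => s2 n).trans ?_)
  rw [← Finset.sum_mul]
  refine (mul_le_mul_of_nonneg_right s4 (by positivity)).trans (le_of_eq ?_)
  field_simp
  ring

end Pool.Agent.H538.NN
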