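import Pool.Agent.H538.NN.E4
import Pool.Graph.R_pool_sql_team_seeded_1acbe0a2.Y895.PS.R1

set_option autoImplicit false

/-!
# The row structure
-/

namespace Pool.Agent.H538.NN

open Finset Filter Topology MeasureTheory
open Pool.Agent.R529.BU (om WW om_ge om_le WW_cont)
open Pool.Agent.Y895.OL (Row VI FI)
open Pool.Agent.Y895.PS (row_sharp)

/-- a sequence with `log (a n) - log (a m) ≥ κ (n - m) log n` -/
structure Grow (a : ℕ → ℝ) (κ : ℝ) (n0 : ℕ) : Prop where
  pos : ∀ n, 0 < a n
  κ0 : 0 < κ
  gr : ∀ m n : ℕ, n0 ≤ m → m < n → κ * ((n : ℝ) - m) * Real.log n ≤ Real.log (a n) - Real.log (a m)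

lemma Grow.ev {a : ℕ → ℝ} {κ : ℝ} {n0 : ℕ} (h : Grow a κ n0) : ∀ᶠ n : ℕ in atTop, (n : ℝ) ≤ Real.log (a n) := by
  have hκ := h.κ0
  have e1 : ∀ᶠ n : ℕ in atTop, 4 / κ ≤ Real.log n :=
    (Real.tendsto_log_atTop.comp tendsto_natCast_atTop_atTop).eventually_ge_atTop _
  have e2 : ∀ᶠ n : ℕ in atTop, 4 * (n0 : ℝ) - Real.log (a n0) ≤ n := tendsto_natCast_atTop_atTop.eventually_ge_atTop _
  filter_upwards [e1, e2, eventually_gt_atTop n0] with n g1 g2 g3
  have g4 := h.gr n0 n le_rfl g3
  rw [div_le_iff₀ hκ] at g1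
  have g5 : (n0 : ℝ) ≤ n := by exact_mod_cast g3.le
  have g6 : 4 * ((n : ℝ) - n0) ≤ κ * ((n : ℝ) - n0) * Real.log n := by
    have : ((n : ℝ) - n0) * 4 ≤ ((n : ℝ) - n0) * (Real.log n * κ) := mul_le_mul_of_nonneg_left g1 (by linarith)
    linarith
  have g7 : (0 : ℝ) ≤ n := Nat.cast_nonneg n
  linarith

lemma Grow.tend {a : ℕ → ℝ} {κ : ℝ} {n0 : ℕ} (h : Grow a κ n0) :
    Tendsto (fun n => Real.log (a n)) atTop atTop :=
  tendsto_atTop_mono' _ h.ev tendsto_natCast_atTop_atTop

lemma harm_le (q : ℕ) (hq : 1 ≤ q) : ∑ p ∈ range q, 1 / ((q : ℝ) - p) ≤ 1 + Real.log q := by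
  have h1 : ∑ p ∈ range q, 1 / ((q : ℝ) - p) = ∑ i ∈ range q, 1 / ((i : ℝ) + 1) := by
    rw [← Finset.sum_range_reflect (fun i : ℕ => 1 / ((i : ℝ) + 1)) q]
    refine Finset.sum_congr rfl fun p hp => ?_
    rw [mem_range] at hp
    have : ((q - 1 - p : ℕ) : ℝ) = (q : ℝ) - 1 - p := by
      rw [Nat.cast_sub (by omega), Nat.cast_sub hq]; push_cast; ring
    rw [this]
    congr 1
    ring
  rw [h1]
  have h2 := harmonic_le_one_add_log q
  unfold harmonic at h2
  push_cast at h2
  refine le_trans (le_of_eq ?_) h2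
  refine Finset.sum_congr rfl fun i _ => ?_
  rw [one_div]

/-- the weight -/
noncomputable def ww (a : ℕ → ℝ) (q : ℕ) : ℝ := 1 / max 1 (Real.log (a q))

lemma ww0 (a : ℕ → ℝ) (q : ℕ) : 0 ≤ ww a q := by
  unfold ww
  positivity

lemma ww1 (a : ℕ → ℝ) (q : ℕ) : ww a q ≤ 1 := by
  unfold ww
  rw [div_le_one (lt_max_of_lt_left one_pos)]
  exact le_max_left _ _

/-- the events -/
noncomputable def fq (a : ℕ → ℝ) (v : ℝ) (c q : ℕ) (x : ℝ) : ℝ := FF (Real.exp (Real.log (a q) / v)) (a q) c x

/-- the local means -/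
noncomputable def mq (a : ℕ → ℝ) (v θ : ℝ) (c q : ℕ) (x : ℝ) : ℝ :=
  mm (Real.exp (Real.log (a q) / v)) (a q) c (lev θ (a q)) x

theorem the_row {a : ℕ → ℝ} {κ : ℝ} {n0 : ℕ} (h : Grow a κ n0) (c : ℕ) {v ε : ℝ} (hv : 1 < v) (hε : 0 < ε)
    (hεW : ε ≤ WW v) (a0 j : ℕ) (ha0 : 1 ≤ a0) :
    ∃ θ : ℝ, ∃ P : ℕ, Row (volume.restrict (Cell j a0)) (fq a v c) (mq a v θ c) Set.univ (ww a) (fun _ => 1) P ∧
      (∀ᵐ x ∂(volume.restrict (Cell j a0)), ∀ q ≥ P, q ∈ (Set.univ : Set ℕ) → (WW v - ε) * ww a q ≤ mq a v θ c q x) ∧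
      (∀ᵐ x ∂(volume.restrict (Cell j a0)), ∀ q ≥ P, q ∈ (Set.univ : Set ℕ) → mq a v θ c q x ≤ (WW v + ε) * ww a q) ∧
      ∀ q ≥ P, q ∈ (Set.univ : Set ℕ) → ∫ x in Cell j a0, fq a v c q x ≤ (WW v + ε) * ww a q := by
  obtain ⟨θ, hθ, hθ4, P0, hP0⟩ := loc_dens h.pos h.tend c hv hε a0 j ha0
  obtain ⟨C1, hC1, hni⟩ := near_int hv
  have hκ := h.κ0
  have hlog : Tendsto (fun n : ℕ => Real.log (n : ℝ)) atTop atTop :=
    Real.tendsto_log_atTop.comp tendsto_natCast_atTop_atTop
  have e1 := h.ev
  have e2 : ∀ᶠ n : ℕ in atTop, Real.log 2 / κ ≤ Real.log n := hlog.eventually_ge_atTop _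
  have e3 : ∀ᶠ n : ℕ in atTop, Real.log n + Real.log 2 ≤ θ / 2 * n := by
    have h1 : (fun x : ℝ => Real.log x) =o[atTop] (fun x : ℝ => x) := Real.isLittleO_log_id_atTop
    have h2 : ∀ᶠ x : ℝ in atTop, ‖Real.log x‖ ≤ θ / 4 * ‖x‖ := h1.def (by positivity)
    have h3 : ∀ᶠ x : ℝ in atTop, Real.log 2 ≤ θ / 4 * x :=
      (tendsto_id.const_mul_atTop (show 0 < θ / 4 by positivity)).eventually_ge_atTop _
    have h4 : ∀ᶠ x : ℝ in atTop, Real.log x + Real.log 2 ≤ θ / 2 * x := by
      filter_upwards [h2, h3, eventually_ge_atTop 0] with x g1 g2 g3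
      rw [Real.norm_eq_abs, Real.norm_eq_abs, abs_of_nonneg g3] at g1
      have := le_abs_self (Real.log x)
      linarith
    exact tendsto_natCast_atTop_atTop.eventually h4
  obtain ⟨P1, hP1⟩ := (e1.and (e2.and e3)).exists_forall_of_atTop
  set P := max (max P0 P1) (max n0 4) with hP
  have hall : ∀ q ≥ P, P0 ≤ q ∧ P1 ≤ q ∧ n0 ≤ q ∧ 4 ≤ q := by
    intro q hq
    rw [hP] at hq
    exact ⟨(le_max_left _ _).trans ((le_max_left _ _).trans hq), (le_max_right _ _).trans ((le_max_left _ _).trans hq),
      (le_max_left _ _).trans ((le_max_right _ _).trans hq), (le_max_right _ _).trans ((le_max_right _ _).trans hq)⟩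
  set L : ℕ → ℝ := fun q => Real.log (a q) with hLd
  have hLq : ∀ q ≥ P, (q : ℝ) ≤ L q := fun q hq => (hP1 q (hall q hq).2.1).1
  have hq4 : ∀ q ≥ P, (4 : ℝ) ≤ q := fun q hq => by exact_mod_cast (hall q hq).2.2.2
  have hL4 : ∀ q ≥ P, 4 ≤ L q := fun q hq => (hq4 q hq).trans (hLq q hq)
  have hL0 : ∀ q ≥ P, 0 < L q := fun q hq => by linarith [hL4 q hq]
  have hww : ∀ q ≥ P, ww a q = 1 / L q := by
    intro q hq
    unfold ww
    rw [max_eq_right (by have := hL4 q hq; simp only [hLd] at this; linarith)]
  have hj : ∀ q ≥ P, j ≤ lev θ (a q) := fun q hq => (hP0 q (hall q hq).1).1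
  have hK0 : 0 ≤ WW v + ε := by linarith
  have hup : ∀ q ≥ P, ∀ k : ℕ, a0 * 2 ^ (lev θ (a q) - j) ≤ k → k < (a0 + 1) * 2 ^ (lev θ (a q) - j) →
      2 ^ lev θ (a q) * ∫ t in Cell (lev θ (a q)) k, FF (Real.exp (Real.log (a q) / v)) (a q) c t ≤
        (WW v + ε) / L q := by
    intro q hq k hk1 hk2
    have := (abs_le.1 ((hP0 q (hall q hq).1).2 k hk1 hk2)).2
    rw [le_div_iff₀ (hL0 q hq)]
    unfold Cell
    linarith
  have hlo : ∀ q ≥ P, ∀ k : ℕ, a0 * 2 ^ (lev θ (a q) - j) ≤ k → k < (a0 + 1) * 2 ^ (lev θ (a q) - j) →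
      (WW v - ε) / L q ≤ 2 ^ lev θ (a q) * ∫ t in Cell (lev θ (a q)) k, FF (Real.exp (Real.log (a q) / v)) (a q) c t := by
    intro q hq k hk1 hk2
    have := (abs_le.1 ((hP0 q (hall q hq).1).2 k hk1 hk2)).1
    rw [div_le_iff₀ (hL0 q hq)]
    unfold Cell
    linarith
  have hBq : ∀ q ≥ P, 0 ≤ (WW v + ε) / L q := fun q hq => div_nonneg hK0 (hL0 q hq).le
  have hmup : ∀ x ∈ Cell j a0, ∀ q ≥ P, mq a v θ c q x ≤ (WW v + ε) * ww a q := by
    intro x hx q hq
    rw [hww q hq, mul_one_div]
    exact mm_le_on (hj q hq) (hup q hq) hx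
  have hmlo : ∀ x ∈ Cell j a0, ∀ q ≥ P, (WW v - ε) * ww a q ≤ mq a v θ c q x := by
    intro x hx q hq
    rw [hww q hq, mul_one_div]
    obtain ⟨h1, h2⟩ := idx_mem (hj q hq) hx
    exact hlo q hq _ h1 h2
  have hgap : ∀ p q : ℕ, P ≤ p → p < q → κ * ((q : ℝ) - p) * Real.log q ≤ L q - L p :=
    fun p q hp hpq => h.gr p q (hall p hp).2.2.1 hpq
  have hlog1 : ∀ q ≥ P, 1 ≤ Real.log q := by
    intro q hq
    rw [Real.le_log_iff_exp_le (by linarith [hq4 q hq])]
    have := Real.exp_one_lt_d9
    linarith [hq4 q hq]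
  refine ⟨θ, P, ?_, ?_, ?_, ?_⟩
  · refine ⟨fun q => FF_meas _ _ _, fun q => mm_meas _ _ _ _, fun q x => FF01 _ _ _ _, fun q x => mm0 _ _ _ _ _,
      fun q x => mm1 _ _ _ _ _, ww0 a, ww1 a, fun _ => le_rfl, ⟨1, zero_le_one, fun q _ => by
        rw [mul_one]; exact ww1 a q⟩, ⟨WW v + ε, hK0, ?_⟩, ?_⟩
    · rw [ae_restrict_iff' (Cell_meas _ _)]
      exact Eventually.of_forall fun x hx q hq _ => hmup x hx q hq
    · set K := WW v + ε with hK
      have hK1 : 0 < K := by linarith
      refine ⟨2 * K + 2 * K * (a0 + 1) + 2 / θ * (C1 * (2 / κ) + 3 * K ^ 2), by positivity, ?_, ?_⟩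
      · intro q hq _
        have h1 := diag (z := Real.exp (Real.log (a q) / v)) (a := a q) c (lev θ (a q)) j a0 (hj q hq) (hBq q hq) (hup q hq)
        refine h1.trans ?_
        rw [mul_one, hww q hq]
        have : 2 * (K / L q) = 2 * K * (1 / L q) := by ring
        rw [this]
        refine mul_le_mul_of_nonneg_right ?_ (by have := hL0 q hq; positivity)
        have h2 : 0 ≤ 2 * K * ((a0 : ℝ) + 1) := by positivity
        have h3 : 0 ≤ 2 / θ * (C1 * (2 / κ) + 3 * K ^ 2) := by positivity
        linarith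
      · intro q hq _ T hT
        classical
        have hLq0 := hL0 q hq
        have hqpos : (0 : ℝ) < q := by linarith [hq4 q hq]
        have hTr : T ⊆ range q := fun p hp => mem_range.2 (hT p hp).2.2
        rw [← Finset.sum_filter_add_sum_filter_not T (fun p => a p * q ≤ 2 ^ lev θ (a q))]
        have hsle : ∀ p ∈ T, lev θ (a p) ≤ lev θ (a q) := by
          intro p hp
          obtain ⟨-, hpP, hpq⟩ := hT p hp
          unfold lev
          refine Nat.floor_mono ?_
          have hl2 : 0 < Real.log 2 := Real.log_pos (by norm_num)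
          refine div_le_div_of_nonneg_right ?_ hl2.le
          refine mul_le_mul_of_nonneg_left ?_ hθ.le
          have g1 := hgap p q hpP hpq
          have g2 : 0 ≤ κ * ((q : ℝ) - p) * Real.log q := by
            have : (p : ℝ) ≤ q := by exact_mod_cast hpq.le
            have h3 := hlog1 q hq
            have h4 : 0 ≤ (q : ℝ) - p := by linarith
            positivity
          simp only [hLd] at g1
          linarith
        have hfar : ∑ p ∈ T.filter (fun p => a p * q ≤ 2 ^ lev θ (a q)),
            |∫ x in Cell j a0, (fq a v c p x - mq a v θ c p x) * (fq a v c q x - mq a v θ c q x)| ≤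
            2 * K * (a0 + 1) * (1 / L q) := by
          have h1 : ∀ p ∈ T.filter (fun p => a p * q ≤ 2 ^ lev θ (a q)),
              |∫ x in Cell j a0, (fq a v c p x - mq a v θ c p x) * (fq a v c q x - mq a v θ c q x)| ≤
              2 * K * (a0 + 1) * (1 / L q) * (1 / q) := by
            intro p hp
            rw [mem_filter] at hp
            have h2 := far_pair (z := Real.exp (Real.log (a q) / v)) (a := a q) (z' := Real.exp (Real.log (a p) / v))
              (h.pos p) c (lev θ (a p)) (lev θ (a q)) j a0 (hj q hq) (hsle p hp.1) (hup q hq)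
            refine h2.trans ?_
            have h3 : a p / 2 ^ lev θ (a q) ≤ 1 / q := by
              rw [div_le_div_iff₀ (by positivity) hqpos]
              linarith [hp.2]
            have h4 : 2 * (K / L q) / 2 ^ lev θ (a q) * (((a0 : ℝ) + 1) * a p) =
                2 * K * (a0 + 1) * (1 / L q) * (a p / 2 ^ lev θ (a q)) := by ring
            rw [h4]
            exact mul_le_mul_of_nonneg_left h3 (by positivity)
          refine (Finset.sum_le_sum h1).trans ?_
          rw [Finset.sum_const, nsmul_eq_mul]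
          have h5 : ((T.filter (fun p => a p * q ≤ 2 ^ lev θ (a q))).card : ℝ) ≤ q := by
            have := Finset.card_le_card ((Finset.filter_subset (fun p => a p * q ≤ 2 ^ lev θ (a q)) T).trans hTr)
            rw [card_range] at this
            exact_mod_cast this
          calc _ ≤ (q : ℝ) * (2 * K * (a0 + 1) * (1 / L q) * (1 / q)) :=
                mul_le_mul_of_nonneg_right h5 (by positivity)
            _ = _ := by field_simp
        have hnear : ∑ p ∈ T.filter (fun p => ¬ a p * q ≤ 2 ^ lev θ (a q)),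
            |∫ x in Cell j a0, (fq a v c p x - mq a v θ c p x) * (fq a v c q x - mq a v θ c q x)| ≤
            2 / θ * (C1 * (2 / κ) + 3 * K ^ 2) * (1 / L q) := by
          have h1 : ∀ p ∈ T.filter (fun p => ¬ a p * q ≤ 2 ^ lev θ (a q)),
              |∫ x in Cell j a0, (fq a v c p x - mq a v θ c p x) * (fq a v c q x - mq a v θ c q x)| ≤
              2 / θ * (1 / L q) * (C1 / (κ * Real.log q) * (1 / ((q : ℝ) - p)) + 3 * K ^ 2 * (1 / q)) := by
            intro p hp
            rw [mem_filter, not_le] at hp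
            obtain ⟨hpT, hpn⟩ := hp
            obtain ⟨-, hpP, hpq⟩ := hT p hpT
            have hLp0 := hL0 p hpP
            have hap := h.pos p
            have haq := h.pos q
            have g1 := hgap p q hpP hpq
            have hqp : (1 : ℝ) ≤ (q : ℝ) - p := by
              have : (p : ℝ) + 1 ≤ q := by exact_mod_cast hpq
              linarith
            have hlq := hlog1 q hq
            have g2 : κ * Real.log q ≤ κ * ((q : ℝ) - p) * Real.log q := by
              have : κ * 1 * Real.log q ≤ κ * ((q : ℝ) - p) * Real.log q :=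
                mul_le_mul_of_nonneg_right (mul_le_mul_of_nonneg_left hqp hκ.le) (by linarith)
              linarith
            have g3 : Real.log 2 ≤ κ * Real.log q := by
              have := (hP1 q (hall q hq).2.1).2.1
              rw [div_le_iff₀ hκ] at this
              linarith
            have hap4 : 4 ≤ a p := by
              have h5 : Real.exp (L p) = a p := Real.exp_log hap
              have h6 := Real.add_one_le_exp (L p)
              linarith [hL4 p hpP]
            have haa : 2 * a p ≤ a q := by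
              rw [← Real.log_le_log_iff (by positivity) haq, Real.log_mul (by norm_num) hap.ne']
              simp only [hLd] at g1
              linarith
            have hnp := near_pair' (z := Real.exp (Real.log (a q) / v)) (a := a q) (z' := Real.exp (Real.log (a p) / v))
              (a' := a p) c (lev θ (a p)) (lev θ (a q)) j a0 (hj q hq) (hj p hpP) (hBq q hq) (hBq p hpP) (hup q hq) (hup p hpP)
            have hjn := hni (a q) (a p) c j a0 hap4 haa
            rw [Real.log_div haq.ne' hap.ne'] at hjn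
            -- the near condition
            have hLpq : θ / 2 * L q ≤ L p := by
              have g5 : Real.exp (θ * Real.log (a q)) < 2 * (a p * q) :=
                lt_two_lev.trans (by linarith)
              have g6 : θ * Real.log (a q) < Real.log (2 * (a p * q)) := by
                rw [Real.lt_log_iff_exp_lt (by positivity)]; exact g5
              rw [Real.log_mul (by norm_num) (by positivity), Real.log_mul hap.ne' hqpos.ne'] at g6
              have g7 := (hP1 q (hall q hq).2.1).2.2
              have g8 : θ / 2 * q ≤ θ / 2 * L q := mul_le_mul_of_nonneg_left (hLq q hq) (by positivity)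
              simp only [hLd] at g8 ⊢
              linarith
            have hinv : 1 / L p ≤ 2 / θ * (1 / L q) := by
              rw [div_mul_div_comm, mul_one, div_le_div_iff₀ hLp0 (by positivity)]
              have : θ * L q ≤ 2 * L p := by linarith
              linarith
            have hdiff : 0 < L q - L p := by
              have hl2 : 0 < Real.log 2 := Real.log_pos (by norm_num)
              linarith
            have t1 : C1 / (Real.log (a p) * (Real.log (a q) - Real.log (a p))) ≤
                2 / θ * (1 / L q) * (C1 / (κ * Real.log q) * (1 / ((q : ℝ) - p))) := by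
              have k1 : C1 / (Real.log (a p) * (Real.log (a q) - Real.log (a p))) =
                  (1 / L p) * (C1 * (1 / (L q - L p))) := by
                simp only [hLd]
                rw [← div_div]
                ring
              have k2 : 1 / (L q - L p) ≤ 1 / (κ * Real.log q) * (1 / ((q : ℝ) - p)) := by
                rw [one_div_mul_one_div]
                refine one_div_le_one_div_of_le (by positivity) ?_
                linarith
              rw [k1]
              refine mul_le_mul hinv ?_ (by positivity) (by positivity)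
              calc C1 * (1 / (L q - L p)) ≤ C1 * (1 / (κ * Real.log q) * (1 / ((q : ℝ) - p))) :=
                    mul_le_mul_of_nonneg_left k2 hC1.le
                _ = _ := by ring
            have t2 : 3 * ((WW v + ε) / L q * ((WW v + ε) / L p)) ≤ 2 / θ * (1 / L q) * (3 * K ^ 2 * (1 / q)) := by
              have k1 : 3 * ((WW v + ε) / L q * ((WW v + ε) / L p)) = (1 / L p) * (3 * K ^ 2 * (1 / L q)) := by
                rw [hK]; ring
              rw [k1]
              refine mul_le_mul hinv ?_ (by positivity) (by positivity)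
              refine mul_le_mul_of_nonneg_left ?_ (by positivity)
              exact one_div_le_one_div_of_le hqpos (hLq q hq)
            refine hnp.trans ?_
            rw [mul_add]
            exact add_le_add (hjn.trans t1) t2
          refine (Finset.sum_le_sum h1).trans ?_
          rw [← Finset.mul_sum]
          have h2 : ∑ p ∈ T.filter (fun p => ¬ a p * q ≤ 2 ^ lev θ (a q)),
              (C1 / (κ * Real.log q) * (1 / ((q : ℝ) - p)) + 3 * K ^ 2 * (1 / q)) ≤ C1 * (2 / κ) + 3 * K ^ 2 := by
            have hlq := hlog1 q hq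
            have h3 : ∑ p ∈ T.filter (fun p => ¬ a p * q ≤ 2 ^ lev θ (a q)),
              (C1 / (κ * Real.log q) * (1 / ((q : ℝ) - p)) + 3 * K ^ 2 * (1 / q)) ≤
              ∑ p ∈ range q, (C1 / (κ * Real.log q) * (1 / ((q : ℝ) - p)) + 3 * K ^ 2 * (1 / q)) := by
              refine Finset.sum_le_sum_of_subset_of_nonneg ((Finset.filter_subset _ T).trans hTr) fun p hp _ => ?_
              rw [mem_range] at hp
              have : (0 : ℝ) < (q : ℝ) - p := by
                have : (p : ℝ) < q := by exact_mod_cast hp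
                linarith
              positivity
            refine h3.trans ?_
            rw [Finset.sum_add_distrib, ← Finset.mul_sum, Finset.sum_const, card_range, nsmul_eq_mul]
            have h4 := harm_le q (by have := (hall q hq).2.2.2; omega)
            have h5 : C1 / (κ * Real.log q) * ∑ p ∈ range q, 1 / ((q : ℝ) - p) ≤ C1 * (2 / κ) := by
              calc _ ≤ C1 / (κ * Real.log q) * (1 + Real.log q) := mul_le_mul_of_nonneg_left h4 (by positivity)
                _ ≤ C1 / (κ * Real.log q) * (2 * Real.log q) := mul_le_mul_of_nonneg_left (by linarith) (by positivity)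
                _ = C1 * (2 / κ) := by field_simp
            have h6 : (q : ℝ) * (3 * K ^ 2 * (1 / q)) = 3 * K ^ 2 := by field_simp
            rw [h6]
            linarith
          calc _ ≤ 2 / θ * (1 / L q) * (C1 * (2 / κ) + 3 * K ^ 2) := mul_le_mul_of_nonneg_left h2 (by positivity)
            _ = _ := by ring
        refine (add_le_add hfar hnear).trans ?_
        rw [mul_one, hww q hq]
        have h7 : 0 ≤ 2 * K * (1 / L q) := by positivity
        have h8 : (2 * K + 2 * K * ((a0 : ℝ) + 1) + 2 / θ * (C1 * (2 / κ) + 3 * K ^ 2)) * (1 / L q) =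
            2 * K * (1 / L q) + (2 * K * (a0 + 1) * (1 / L q) + 2 / θ * (C1 * (2 / κ) + 3 * K ^ 2) * (1 / L q)) := by ring
        rw [h8]
        linarith
  · rw [ae_restrict_iff' (Cell_meas _ _)]
    exact Eventually.of_forall fun x hx q hq _ => hmlo x hx q hq
  · rw [ae_restrict_iff' (Cell_meas _ _)]
    exact Eventually.of_forall fun x hx q hq _ => hmup x hx q hq
  · intro q hq _
    rw [hww q hq, mul_one_div]
    exact FF_J_le (hj q hq) (hBq q hq) (hup q hq)

end Pool.Agent.H538.NN
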