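import Pool.Agent.H538.NN.E5
import Pool.Graph.R_pool_sql_team_seeded_1acbe0a2.Y895.PS.T5

set_option autoImplicit false

/-!
# The law for almost every amplitude
-/

namespace Pool.Agent.H538.NN

open Finset Filter Topology MeasureTheory
open Pool.Agent.R529.BU (om WW om_ge om_le WW_cont)
open Pool.Agent.Y895.OL (Row VI FI fin_of_conv VI_mono)
open Pool.Agent.Y895.PS (row_sharp)
open Pool.Agent.Y895.PT (lim_of_close2)

instance cellFin (j a0 : ℕ) : IsFiniteMeasure (volume.restrict (Cell j a0)) := by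
  unfold Cell
  infer_instance

lemma WW_pos' {v : ℝ} (hv : 1 < v) : 0 < WW v := by
  have := om_ge v hv.le
  exact mul_pos (by linarith) (by linarith)

theorem block_law {a : ℕ → ℝ} {κ : ℝ} {n0 : ℕ} (h : Grow a κ n0) (c : ℕ) {v : ℝ} (hv : 1 < v)
    (a0 j : ℕ) (ha0 : 1 ≤ a0) (S : Set ℕ) (hdiv : Tendsto (VI Set.univ (ww a) S) atTop atTop) :
    ∀ᵐ x ∂(volume.restrict (Cell j a0)), Tendsto (fun n : ℕ =>
      FI Set.univ (fq a v c) S n x / VI Set.univ (ww a) S n) atTop (𝓝 (WW v)) := by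
  have hW := WW_pos' hv
  have h1 : ∀ k : ℕ, ∀ᵐ x ∂(volume.restrict (Cell j a0)), ∀ᶠ n : ℕ in atTop,
      (1 - 1 / ((k : ℝ) + 2)) * WW v * VI Set.univ (ww a) S n ≤ FI Set.univ (fq a v c) S n x ∧
      FI Set.univ (fq a v c) S n x ≤ (1 + 1 / ((k : ℝ) + 2)) * WW v * VI Set.univ (ww a) S n := by
    intro k
    have hk : (0 : ℝ) < (k : ℝ) + 2 := by positivity
    have hk0 : (0 : ℝ) ≤ k := Nat.cast_nonneg k
    set ε : ℝ := WW v / (2 * ((k : ℝ) + 2)) with hε
    have hε0 : 0 < ε := by positivity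
    have hεW : ε < WW v := by
      rw [hε, div_lt_iff₀ (by positivity)]
      nlinarith
    obtain ⟨θ, P, hrow, hlo, hup, -⟩ := the_row h c hv hε0 hεW.le a0 j ha0
    have h2 := row_sharp hrow (c0 := WW v - ε) (K := WW v + ε) (e := ε) (by linarith) (by linarith) hε0 hlo hup S hdiv
    filter_upwards [h2] with x hx
    filter_upwards [hx] with n hn
    have e1 : (1 - 1 / ((k : ℝ) + 2)) * WW v = WW v - ε - ε := by rw [hε]; field_simp; ring
    have e2 : (1 + 1 / ((k : ℝ) + 2)) * WW v = WW v + ε + ε := by rw [hε]; field_simp; ring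
    rw [e1, e2]
    exact hn
  filter_upwards [ae_all_iff.2 h1] with x hx
  exact lim_of_close2 hW hdiv hx

/-- from the dyadic intervals to all amplitudes -/
lemma ae_cells {Q : ℝ → Prop} (h : ∀ a0 j : ℕ, 1 ≤ a0 → ∀ᵐ x ∂(volume.restrict (Cell j a0)), Q x) :
    ∀ᵐ x : ℝ, 0 < x → Q x := by
  have h1 : ∀ᵐ x : ℝ, ∀ a0 j : ℕ, 1 ≤ a0 → x ∈ Cell j a0 → Q x := by
    rw [ae_all_iff]
    intro a0
    rw [ae_all_iff]
    intro j
    by_cases ha : 1 ≤ a0
    · have := h a0 j ha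
      rw [ae_restrict_iff' (Cell_meas _ _)] at this
      filter_upwards [this] with x hx _
      exact hx
    · exact Eventually.of_forall fun x h => absurd h ha
  filter_upwards [h1] with x hx hx0
  obtain ⟨j, hj⟩ := pow_unbounded_of_one_lt (1 / x) (show (1 : ℝ) < 2 by norm_num)
  rw [div_lt_iff₀ hx0] at hj
  have h2j : (0 : ℝ) < 2 ^ j := by positivity
  refine hx ⌊x * 2 ^ j⌋₊ j ?_ ?_
  · exact Nat.le_floor (by push_cast; linarith)
  · show _ ∈ Set.Ico _ _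
    rw [Set.mem_Ico, div_le_iff₀ h2j, lt_div_iff₀ h2j]
    exact ⟨Nat.floor_le (by positivity), Nat.lt_floor_add_one _⟩

theorem law_v {a : ℕ → ℝ} {κ : ℝ} {n0 : ℕ} (h : Grow a κ n0) (c : ℕ) {v : ℝ} (hv : 1 < v)
    (S : Set ℕ) (hdiv : Tendsto (VI Set.univ (ww a) S) atTop atTop) :
    ∀ᵐ x : ℝ, 0 < x → Tendsto (fun n : ℕ =>
      FI Set.univ (fq a v c) S n x / VI Set.univ (ww a) S n) atTop (𝓝 (WW v)) :=
  ae_cells fun a0 j ha0 => block_law h c hv a0 j ha0 S hdiv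

theorem fin_v {a : ℕ → ℝ} {κ : ℝ} {n0 : ℕ} (h : Grow a κ n0) (c : ℕ) {v : ℝ} (hv : 1 < v)
    (S : Set ℕ) (hdiv : ¬ Tendsto (VI Set.univ (ww a) S) atTop atTop) :
    ∀ᵐ x : ℝ, 0 < x → {q : ℕ | q ∈ S ∧ fq a v c q x = 1}.Finite := by
  refine ae_cells fun a0 j ha0 => ?_
  have hW := WW_pos' hv
  obtain ⟨θ, P, hrow, hlo, hup, hone⟩ := the_row h c hv hW le_rfl a0 j ha0
  have h1 := fin_of_conv (μ := volume.restrict (Cell j a0)) (P := P) hrow.fm hrow.f0 hrow.f1 hrow.w0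
    (K := WW v + WW v) (by linarith) hone S hdiv
  filter_upwards [h1] with x hx
  refine hx.subset fun q hq => ⟨hq.1, Set.mem_univ _, hq.2⟩

open Classical in
/-- the counting function -/
noncomputable def cnt (a : ℕ → ℝ) (c : ℕ) (S : Set ℕ) (β u : ℝ) (n : ℕ) : ℕ :=
  ((Finset.range (n + 1)).filter (fun q => q ∈ S ∧
    ∀ l : ℕ, l.Prime → (l : ℝ) ≤ ((⌊β * a q⌋₊ + c : ℕ) : ℝ) ^ (1 / u) → ¬ l ∣ ⌊β * a q⌋₊ + c)).card

lemma fq_one {a : ℕ → ℝ} {v : ℝ} {c q : ℕ} {x : ℝ} :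
    fq a v c q x = 1 ↔ ∀ l : ℕ, l.Prime → l ∣ ⌊x * a q⌋₊ + c → Real.exp (Real.log (a q) / v) < l := by
  unfold fq FF ri
  split_ifs with h
  · exact ⟨fun _ => h, fun _ => rfl⟩
  · constructor
    · intro h0; norm_num at h0
    · intro h1; exact absurd h1 h

/-- the counting function of the events -/
lemma FI_eq {a : ℕ → ℝ} {v : ℝ} {c : ℕ} (S : Set ℕ) (n : ℕ) (x : ℝ) [DecidablePred fun q => q ∈ S ∧ fq a v c q x = 1] :
    FI Set.univ (fq a v c) S n x = (((Finset.range (n + 1)).filter (fun q => q ∈ S ∧ fq a v c q x = 1)).card : ℝ) := by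
  unfold FI
  rw [Finset.card_filter, Nat.cast_sum]
  refine Finset.sum_congr rfl fun q _ => ?_
  by_cases h1 : q ∈ S
  · rcases FF01 (Real.exp (Real.log (a q) / v)) (a q) c x with h2 | h2
    · have h3 : fq a v c q x = 0 := h2
      simp [h1, h3]
    · have h3 : fq a v c q x = 1 := h2
      simp [h1, h3]
  · simp [h1]

/-- sizes -/
lemma size_ev {a : ℕ → ℝ} (hap : ∀ n, 0 < a n) (hL : Tendsto (fun n => Real.log (a n)) atTop atTop) (c : ℕ)
    {β : ℝ} (hβ : 0 < β) {u v : ℝ} (hu : 0 < u) (hv : 0 < v) :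
    (u < v → ∃ q0 : ℕ, ∀ q ≥ q0, Real.exp (Real.log (a q) / v) ≤ ((⌊β * a q⌋₊ + c : ℕ) : ℝ) ^ (1 / u)) ∧
    (v < u → ∃ q0 : ℕ, ∀ q ≥ q0, ((⌊β * a q⌋₊ + c : ℕ) : ℝ) ^ (1 / u) ≤ Real.exp (Real.log (a q) / v)) := by
  have hc0 : (0 : ℝ) ≤ c := Nat.cast_nonneg c
  constructor
  · intro huv
    have hd : 0 < 1 / u - 1 / v := by
      have := one_div_lt_one_div_of_lt hu huv
      linarith
    have h1 : ∀ᶠ q : ℕ in atTop, 2 / β ≤ Real.exp (Real.log (a q)) :=
      (Real.tendsto_exp_atTop.comp hL).eventually_ge_atTop _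
    have h2 : ∀ᶠ q : ℕ in atTop, 1 / u * |Real.log (β / 2)| ≤ (1 / u - 1 / v) * (Real.log (a q)) :=
      (hL.const_mul_atTop hd).eventually_ge_atTop _
    obtain ⟨p0, hp0⟩ := (h1.and h2).exists_forall_of_atTop
    refine ⟨p0, fun q hq => ?_⟩
    obtain ⟨g1, g2⟩ := hp0 q hq
    rw [Real.exp_log (hap q), div_le_iff₀ hβ] at g1
    have g3 : β / 2 * a q ≤ ((⌊β * a q⌋₊ + c : ℕ) : ℝ) := by
      have h4 := Nat.lt_floor_add_one (β * a q)
      push_cast
      nlinarith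
    have g4 : (β / 2 * a q) ^ (1 / u) ≤ ((⌊β * a q⌋₊ + c : ℕ) : ℝ) ^ (1 / u) :=
      Real.rpow_le_rpow (by have := hap q; positivity) g3 (by positivity)
    refine le_trans ?_ g4
    have e : β / 2 * a q = Real.exp (Real.log (β / 2) + Real.log (a q)) := by
      rw [Real.exp_add, Real.exp_log (by positivity), Real.exp_log (hap q)]
    rw [e, ← Real.exp_mul, Real.exp_le_exp]
    have h5 := neg_abs_le (Real.log (β / 2))
    have h6 : 1 / u * -|Real.log (β / 2)| ≤ 1 / u * Real.log (β / 2) :=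
      mul_le_mul_of_nonneg_left h5 (by positivity)
    have h7 : (Real.log (β / 2) + Real.log (a q)) * (1 / u) = 1 / u * Real.log (β / 2) + 1 / u * (Real.log (a q)) := by
      ring
    rw [h7]
    have h8 : Real.log (a q) / v = 1 / v * (Real.log (a q)) := by ring
    rw [h8]
    linarith
  · intro hvu
    have hd : 0 < 1 / v - 1 / u := by
      have := one_div_lt_one_div_of_lt hv hvu
      linarith
    have h1 : ∀ᶠ q : ℕ in atTop, 1 ≤ Real.exp (Real.log (a q)) :=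
      (Real.tendsto_exp_atTop.comp hL).eventually_ge_atTop _
    have h2 : ∀ᶠ q : ℕ in atTop, 1 / u * |Real.log (β + c)| ≤ (1 / v - 1 / u) * (Real.log (a q)) :=
      (hL.const_mul_atTop hd).eventually_ge_atTop _
    obtain ⟨p0, hp0⟩ := (h1.and h2).exists_forall_of_atTop
    refine ⟨p0, fun q hq => ?_⟩
    obtain ⟨g1, g2⟩ := hp0 q hq
    rw [Real.exp_log (hap q)] at g1
    have hq0 := hap q
    have g3 : ((⌊β * a q⌋₊ + c : ℕ) : ℝ) ≤ (β + c) * a q := by
      have h4 := Nat.floor_le (show 0 ≤ β * a q by positivity)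
      push_cast
      nlinarith
    have hβc : 0 < β + c := by linarith
    have g4 : ((⌊β * a q⌋₊ + c : ℕ) : ℝ) ^ (1 / u) ≤ ((β + c) * a q) ^ (1 / u) :=
      Real.rpow_le_rpow (Nat.cast_nonneg _) g3 (by positivity)
    refine g4.trans ?_
    have e : (β + c) * a q = Real.exp (Real.log (β + c) + Real.log (a q)) := by
      rw [Real.exp_add, Real.exp_log hβc, Real.exp_log hq0]
    rw [e, ← Real.exp_mul, Real.exp_le_exp]
    have h5 := le_abs_self (Real.log (β + c))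
    have h6 : 1 / u * Real.log (β + c) ≤ 1 / u * |Real.log (β + c)| :=
      mul_le_mul_of_nonneg_left h5 (by positivity)
    have h7 : (Real.log (β + c) + Real.log (a q)) * (1 / u) = 1 / u * Real.log (β + c) + 1 / u * (Real.log (a q)) := by
      ring
    rw [h7]
    have h8 : Real.log (a q) / v = 1 / v * (Real.log (a q)) := by ring
    rw [h8]
    linarith

/-- comparison of counting functions -/
lemma card_cmp {P Q : ℕ → Prop} [DecidablePred P] [DecidablePred Q] {p0 : ℕ} (h : ∀ p ≥ p0, P p → Q p) (n : ℕ) :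
    (((Finset.range (n + 1)).filter P).card : ℝ) ≤ ((Finset.range (n + 1)).filter Q).card + p0 := by
  have h1 : (Finset.range (n + 1)).filter P ⊆ (Finset.range (n + 1)).filter Q ∪ Finset.range p0 := by
    intro p hp
    rw [mem_filter] at hp
    rw [mem_union, mem_filter, mem_range (m := p) (n := p0)]
    by_cases hpp : p < p0
    · exact Or.inr hpp
    · exact Or.inl ⟨hp.1, h p (by omega) hp.2⟩
  have h2 := (card_le_card h1).trans (card_union_le _ _)
  rw [card_range] at h2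
  exact_mod_cast h2

/-- **Buchstab's law.** -/
theorem law_all {a : ℕ → ℝ} {κ : ℝ} {n0 : ℕ} (h : Grow a κ n0) (c : ℕ) (S : Set ℕ)
    (hdiv : Tendsto (VI Set.univ (ww a) S) atTop atTop) :
    ∀ᵐ β : ℝ, 0 < β → ∀ u : ℝ, 1 < u → Tendsto (fun n : ℕ => (cnt a c S β u n : ℝ) / VI Set.univ (ww a) S n) atTop
      (𝓝 (WW u)) := by
  classical
  have h1 : ∀ᵐ β : ℝ, ∀ v : ℚ, (1 : ℝ) < v → 0 < β →
      Tendsto (fun n : ℕ => FI Set.univ (fq a v c) S n β / VI Set.univ (ww a) S n) atTop (𝓝 (WW v)) := by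
    rw [ae_all_iff]
    intro v
    by_cases hv : (1 : ℝ) < v
    · filter_upwards [law_v h c hv S hdiv] with β hβ _ h0
      exact hβ h0
    · exact Eventually.of_forall fun β h => absurd h hv
  filter_upwards [h1] with β hβ hβ0 u hu
  have hu0 : 0 < u := by linarith
  rw [Metric.tendsto_atTop]
  intro ε hε
  obtain ⟨ρ, hρ, hcont⟩ := Metric.continuousAt_iff.1 (WW_cont.continuousAt (x := u)) (ε / 4) (by positivity)
  obtain ⟨v2, hv2a, hv2b⟩ := exists_rat_btwn (show u < u + ρ by linarith)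
  obtain ⟨v1, hv1a, hv1b⟩ := exists_rat_btwn (show max 1 (u - ρ) < u from max_lt hu (by linarith))
  have hv11 : (1 : ℝ) < v1 := lt_of_le_of_lt (le_max_left _ _) hv1a
  have hv1ρ : u - ρ < v1 := lt_of_le_of_lt (le_max_right _ _) hv1a
  have t2 := hβ v2 (by linarith) hβ0
  have t1 := hβ v1 hv11 hβ0
  have c2 := hcont (show dist (v2 : ℝ) u < ρ by rw [Real.dist_eq, abs_lt]; constructor <;> linarith)
  have c1 := hcont (show dist (v1 : ℝ) u < ρ by rw [Real.dist_eq, abs_lt]; constructor <;> linarith)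
  simp only [Real.dist_eq] at c1 c2
  obtain ⟨p2, hp2⟩ := (size_ev h.pos h.tend c hβ0 hu0 (show (0 : ℝ) < v2 by linarith)).1 hv2a
  obtain ⟨p1, hp1⟩ := (size_ev h.pos h.tend c hβ0 hu0 (show (0 : ℝ) < v1 by linarith)).2 hv1b
  have b2 : ∀ n : ℕ, (cnt a c S β u n : ℝ) ≤ FI Set.univ (fq a v2 c) S n β + p2 := fun n => by
    rw [FI_eq]
    refine card_cmp (fun p hp hP => ⟨hP.1, fq_one.2 fun l hl hd => ?_⟩) n
    by_contra hc
    push Not at hc
    exact hP.2 l hl (hc.trans (hp2 p hp)) hd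
  have b1 : ∀ n : ℕ, FI Set.univ (fq a v1 c) S n β ≤ (cnt a c S β u n : ℝ) + p1 := fun n => by
    rw [FI_eq]
    refine card_cmp (fun p hp hP => ⟨hP.1, fun l hl hlz hd => ?_⟩) n
    have := fq_one.1 hP.2 l hl hd
    have := hp1 p hp
    linarith
  have s2 : Tendsto (fun n : ℕ => (p2 : ℝ) / VI Set.univ (ww a) S n) atTop (𝓝 0) := hdiv.const_div_atTop _
  have s1 : Tendsto (fun n : ℕ => (p1 : ℝ) / VI Set.univ (ww a) S n) atTop (𝓝 0) := hdiv.const_div_atTop _
  obtain ⟨n2, hn2⟩ := (Metric.tendsto_atTop.1 t2) (ε / 4) (by positivity)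
  obtain ⟨n1, hn1⟩ := (Metric.tendsto_atTop.1 t1) (ε / 4) (by positivity)
  obtain ⟨m2, hm2⟩ := (Metric.tendsto_atTop.1 s2) (ε / 4) (by positivity)
  obtain ⟨m1, hm1⟩ := (Metric.tendsto_atTop.1 s1) (ε / 4) (by positivity)
  obtain ⟨n0, hn0⟩ := eventually_atTop.1 (hdiv.eventually_gt_atTop 0)
  refine ⟨max (max n1 n2) (max (max m1 m2) n0), fun n hn => ?_⟩
  have k1 := hn1 n ((le_max_left _ _).trans ((le_max_left _ _).trans hn))
  have k2 := hn2 n ((le_max_right _ _).trans ((le_max_left _ _).trans hn))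
  have l1 := hm1 n ((le_max_left _ _).trans ((le_max_left _ _).trans ((le_max_right _ _).trans hn)))
  have l2 := hm2 n ((le_max_right _ _).trans ((le_max_left _ _).trans ((le_max_right _ _).trans hn)))
  have hV := hn0 n ((le_max_right _ _).trans ((le_max_right _ _).trans hn))
  rw [Real.dist_eq, abs_lt] at k1 k2 l1 l2
  rw [abs_lt] at c1 c2
  have d2 := div_le_div_of_nonneg_right (b2 n) hV.le
  have d1 := div_le_div_of_nonneg_right (b1 n) hV.le
  rw [add_div] at d1 d2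
  rw [Real.dist_eq, abs_lt]
  constructor
  · linarith [k1.1, l1.2, c1.1]
  · linarith [k2.2, l2.2, c2.2]

/-- **The convergent case.** -/
theorem fin_all {a : ℕ → ℝ} {κ : ℝ} {n0 : ℕ} (h : Grow a κ n0) (c : ℕ) (S : Set ℕ)
    (hdiv : ¬ Tendsto (VI Set.univ (ww a) S) atTop atTop) :
    ∀ᵐ β : ℝ, 0 < β → ∀ u : ℝ, 1 < u → {q : ℕ | q ∈ S ∧
      ∀ l : ℕ, l.Prime → (l : ℝ) ≤ ((⌊β * a q⌋₊ + c : ℕ) : ℝ) ^ (1 / u) → ¬ l ∣ ⌊β * a q⌋₊ + c}.Finite := by
  have h1 : ∀ᵐ β : ℝ, ∀ v : ℚ, (1 : ℝ) < v → 0 < β → {q : ℕ | q ∈ S ∧ fq a v c q β = 1}.Finite := by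
    rw [ae_all_iff]
    intro v
    by_cases hv : (1 : ℝ) < v
    · filter_upwards [fin_v h c hv S hdiv] with β hβ _ h0
      exact hβ h0
    · exact Eventually.of_forall fun β h => absurd h hv
  filter_upwards [h1] with β hβ hβ0 u hu
  obtain ⟨v2, hv2a, hv2b⟩ := exists_rat_btwn (show u < u + 1 by linarith)
  obtain ⟨p2, hp2⟩ := (size_ev h.pos h.tend c hβ0 (show 0 < u by linarith) (show (0 : ℝ) < v2 by linarith)).1 hv2a
  refine ((hβ v2 (by linarith) hβ0).union (Set.finite_lt_nat p2)).subset fun q hq => ?_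
  by_cases hqp : q < p2
  · exact Or.inr hqp
  · refine Or.inl ⟨hq.1, fq_one.2 fun l hl hd => ?_⟩
    by_contra hc
    push Not at hc
    exact hq.2 l hl (hc.trans (hp2 q (by omega))) hd

end Pool.Agent.H538.NN
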