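import Pool.Agent.H538.NN.E6

set_option autoImplicit false

/-!
# Change of the normalization, and the primes
-/

namespace Pool.Agent.H538.NN

open Finset Filter Topology MeasureTheory
open Pool.Agent.R529.BU (om WW om_ge om_le WW_cont)
open Pool.Agent.Y895.OL (VI FI)

/-- a bounded change of the normalization -/
lemma ratio_shift {F V V' : ℕ → ℝ} {l B : ℝ} (hV : Tendsto V atTop atTop)
    (hB : ∀ᶠ x in atTop, |V' x - V x| ≤ B) (h : Tendsto (fun x => F x / V x) atTop (𝓝 l)) :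
    Tendsto (fun x => F x / V' x) atTop (𝓝 l) := by
  have h0 : Tendsto (fun x => (V' x - V x) / V x) atTop (𝓝 0) := by
    have h1 : Tendsto (fun x => B / V x) atTop (𝓝 0) := hV.const_div_atTop B
    refine squeeze_zero_norm' ?_ h1
    filter_upwards [hB, hV.eventually_gt_atTop 0] with x g1 g2
    rw [Real.norm_eq_abs, abs_div, abs_of_pos g2]
    exact div_le_div_of_nonneg_right g1 g2.le
  have h1 : Tendsto (fun x => V' x / V x) atTop (𝓝 1) := by
    have h2 := h0.const_add 1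
    rw [add_zero] at h2
    refine h2.congr' ?_
    filter_upwards [hV.eventually_gt_atTop 0] with x g2
    field_simp
    ring
  have h2 := h.div h1 one_ne_zero
  rw [div_one] at h2
  refine h2.congr' ?_
  filter_upwards [hV.eventually_gt_atTop 0] with x g2
  exact div_div_div_cancel_right₀ g2.ne' _ _

lemma shift_atTop {V V' : ℕ → ℝ} {B : ℝ} (hB : ∀ᶠ x in atTop, |V' x - V x| ≤ B)
    (hV : Tendsto V atTop atTop) : Tendsto V' atTop atTop := by
  refine tendsto_atTop_mono' _ ?_ (tendsto_atTop_add_const_right _ (-B) hV)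
  filter_upwards [hB] with x hx
  have := (abs_le.1 hx).1
  linarith

open Classical in
/-- the sum of `1 / log (a n)` over the `n ≤ x` in `S` -/
noncomputable def VS (a : ℕ → ℝ) (S : Set ℕ) (x : ℕ) : ℝ :=
  ∑ n ∈ (Finset.range (x + 1)).filter (fun n => n ∈ S), 1 / Real.log (a n)

lemma VS_close {a : ℕ → ℝ} (hL : Tendsto (fun n => Real.log (a n)) atTop atTop) (S : Set ℕ) :
    ∃ B : ℝ, ∀ᶠ x in atTop, |VS a S x - VI Set.univ (ww a) S x| ≤ B := by
  classical
  obtain ⟨n1, hn1⟩ := (hL.eventually_ge_atTop 1).exists_forall_of_atTop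
  set u : ℕ → ℝ := fun n => if n ∈ S then 1 / Real.log (a n) - ww a n else 0 with hu
  have h0 : ∀ n ≥ n1, u n = 0 := by
    intro n hn
    rw [hu]
    dsimp only
    split_ifs with hS
    · unfold ww
      rw [max_eq_right (hn1 n hn), sub_self]
    · rfl
  refine ⟨|∑ n ∈ Finset.range n1, u n|, ?_⟩
  filter_upwards [eventually_ge_atTop n1] with x hx
  have e : VS a S x - VI Set.univ (ww a) S x = ∑ n ∈ Finset.range (x + 1), u n := by
    unfold VS VI
    rw [Finset.sum_filter, ← Finset.sum_sub_distrib]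
    refine Finset.sum_congr rfl fun n _ => ?_
    by_cases h : n ∈ S
    · simp [hu, h]
    · simp [hu, h]
  rw [e, Finset.eventually_constant_sum h0 (show n1 ≤ x + 1 by omega)]

lemma VS_abs_symm {V V' : ℕ → ℝ} {B : ℝ} (h : ∀ᶠ x in atTop, |V' x - V x| ≤ B) :
    ∀ᶠ x in atTop, |V x - V' x| ≤ B := by
  filter_upwards [h] with x hx
  rw [abs_sub_comm]
  exact hx

/-- the law with the natural normalization -/
theorem law_VS {a : ℕ → ℝ} {κ : ℝ} {n0 : ℕ} (h : Grow a κ n0) (c : ℕ) (S : Set ℕ)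
    (hdiv : Tendsto (VS a S) atTop atTop) :
    ∀ᵐ β : ℝ, 0 < β → ∀ u : ℝ, 1 < u → Tendsto (fun n : ℕ => (cnt a c S β u n : ℝ) / VS a S n) atTop
      (𝓝 (WW u)) := by
  obtain ⟨B, hB⟩ := VS_close h.tend S
  have hVI : Tendsto (VI Set.univ (ww a) S) atTop atTop := shift_atTop (VS_abs_symm hB) hdiv
  filter_upwards [law_all h c S hVI] with β hβ h0 u hu
  exact ratio_shift hVI hB (hβ h0 u hu)

theorem fin_VS {a : ℕ → ℝ} {κ : ℝ} {n0 : ℕ} (h : Grow a κ n0) (c : ℕ) (S : Set ℕ)
    (hdiv : ¬ Tendsto (VS a S) atTop atTop) :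
    ∀ᵐ β : ℝ, 0 < β → ∀ u : ℝ, 1 < u → {q : ℕ | q ∈ S ∧
      ∀ l : ℕ, l.Prime → (l : ℝ) ≤ ((⌊β * a q⌋₊ + c : ℕ) : ℝ) ^ (1 / u) → ¬ l ∣ ⌊β * a q⌋₊ + c}.Finite := by
  obtain ⟨B, hB⟩ := VS_close h.tend S
  exact fin_all h c S fun hVI => hdiv (shift_atTop hB hVI)

lemma prime_iff {N : ℕ} (hN : 2 ≤ N) : N.Prime ↔
    ∀ l : ℕ, l.Prime → (l : ℝ) ≤ (N : ℝ) ^ ((1 : ℝ) / 2) → ¬ l ∣ N := by
  constructor
  · intro h l hl hle hd
    have h1 := (Nat.prime_dvd_prime_iff_eq hl h).1 hd
    rw [h1, ← Real.sqrt_eq_rpow, Real.le_sqrt' (by exact_mod_cast (by omega : 0 < N))] at hle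
    have h2 : N ^ 2 ≤ N := by exact_mod_cast hle
    nlinarith
  · intro h
    by_contra hc
    have h1 := Nat.minFac_prime (n := N) (by omega)
    have h2 := Nat.minFac_dvd N
    refine h _ h1 ?_ h2
    have h3 := Nat.minFac_sq_le_self (n := N) (by omega) hc
    rw [← Real.sqrt_eq_rpow]
    refine Real.le_sqrt_of_sq_le ?_
    exact_mod_cast h3

open Classical in
/-- the number of the primes -/
noncomputable def cP (a : ℕ → ℝ) (c : ℕ) (S : Set ℕ) (β : ℝ) (n : ℕ) : ℕ :=
  ((Finset.range (n + 1)).filter (fun q => q ∈ S ∧ (⌊β * a q⌋₊ + c).Prime)).card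

lemma cP_close {a : ℕ → ℝ} (hap : ∀ n, 0 < a n) (hL : Tendsto (fun n => Real.log (a n)) atTop atTop) (c : ℕ)
    (S : Set ℕ) {β : ℝ} (hβ : 0 < β) :
    ∃ B : ℝ, ∀ n : ℕ, |(cP a c S β n : ℝ) - cnt a c S β 2 n| ≤ B := by
  classical
  have h1 : ∀ᶠ q : ℕ in atTop, 2 / β ≤ Real.exp (Real.log (a q)) :=
    (Real.tendsto_exp_atTop.comp hL).eventually_ge_atTop _
  obtain ⟨p0, hp0⟩ := h1.exists_forall_of_atTop
  have h2 : ∀ q ≥ p0, 2 ≤ ⌊β * a q⌋₊ + c := by
    intro q hq
    have := hp0 q hq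
    rw [Real.exp_log (hap q), div_le_iff₀ hβ] at this
    have h3 : 2 ≤ ⌊β * a q⌋₊ := Nat.le_floor (by push_cast; linarith)
    omega
  refine ⟨p0, fun n => ?_⟩
  have b1 : (cP a c S β n : ℝ) ≤ cnt a c S β 2 n + p0 :=
    card_cmp (fun p hp hP => ⟨hP.1, (prime_iff (h2 p hp)).1 hP.2⟩) n
  have b2 : (cnt a c S β 2 n : ℝ) ≤ cP a c S β n + p0 :=
    card_cmp (fun p hp hP => ⟨hP.1, (prime_iff (h2 p hp)).2 hP.2⟩) n
  rw [abs_le]
  constructor <;> linarith

lemma WW_two : WW 2 = 1 := by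
  unfold WW
  exact Pool.Agent.R529.BU.om_one_two 2 (by norm_num) le_rfl

/-- the share of the primes -/
theorem share {a : ℕ → ℝ} {κ : ℝ} {n0 : ℕ} (h : Grow a κ n0) (c : ℕ) (S : Set ℕ)
    (hdiv : Tendsto (VS a S) atTop atTop) {β : ℝ} (hβ : 0 < β)
    (hl : ∀ u : ℝ, 1 < u → Tendsto (fun n : ℕ => (cnt a c S β u n : ℝ) / VS a S n) atTop (𝓝 (WW u)))
    {u : ℝ} (hu : 1 < u) : Tendsto (fun n : ℕ => (cP a c S β n : ℝ) / cnt a c S β u n) atTop (𝓝 (1 / WW u)) := by
  obtain ⟨B, hB⟩ := cP_close h.pos h.tend c S hβ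
  have h1 : Tendsto (fun n : ℕ => (cP a c S β n : ℝ) / VS a S n) atTop (𝓝 1) := by
    have h2 := hl 2 (by norm_num)
    rw [WW_two] at h2
    have h3 : Tendsto (fun n : ℕ => ((cP a c S β n : ℝ) - cnt a c S β 2 n) / VS a S n) atTop (𝓝 0) := by
      refine squeeze_zero_norm' ?_ (hdiv.const_div_atTop B)
      filter_upwards [hdiv.eventually_gt_atTop 0] with x g2
      rw [Real.norm_eq_abs, abs_div, abs_of_pos g2]
      exact div_le_div_of_nonneg_right (hB x) g2.le
    have h4 := h2.add h3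
    rw [add_zero] at h4
    refine h4.congr fun x => ?_
    rw [← add_div]
    congr 1
    ring
  have h5 := h1.div (hl u hu) (WW_pos' hu).ne'
  refine h5.congr' ?_
  filter_upwards [hdiv.eventually_gt_atTop 0] with x g2
  exact div_div_div_cancel_right₀ g2.ne' _ _

/-! The sums of `1 / (n log n)`; the following lemmas are those of `X37/NP/Fin`. -/

lemma step_up {q : ℕ} (hq : 3 ≤ q) : 1 / ((q : ℝ) * Real.log q) ≤
    Real.log (Real.log q) - Real.log (Real.log ((q : ℝ) - 1)) := by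
  have hq3 : (3 : ℝ) ≤ q := by exact_mod_cast hq
  set a := Real.log ((q : ℝ) - 1) with ha
  set b := Real.log (q : ℝ) with hb
  have ha0 : 0 < a := Real.log_pos (by linarith)
  have hb0 : 0 < b := Real.log_pos (by linarith)
  have h1 : 1 / (q : ℝ) ≤ b - a := by
    have h2 := Real.one_sub_inv_le_log_of_pos (show 0 < (q : ℝ) / (q - 1) by
      apply div_pos <;> linarith)
    rw [Real.log_div (by linarith) (by linarith), ← ha, ← hb] at h2
    have h3 : 1 - ((q : ℝ) / (q - 1))⁻¹ = 1 / q := by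
      have : (q : ℝ) - 1 ≠ 0 := by linarith
      have : (q : ℝ) ≠ 0 := by linarith
      field_simp
      ring
    linarith
  have h4 := Real.one_sub_inv_le_log_of_pos (show 0 < b / a by positivity)
  rw [Real.log_div hb0.ne' ha0.ne'] at h4
  have h5 : 1 - (b / a)⁻¹ = (b - a) / b := by field_simp
  rw [h5] at h4
  have h6 : 1 / ((q : ℝ) * b) ≤ (b - a) / b := by
    calc 1 / ((q : ℝ) * b) = (1 / q) / b := by field_simp
      _ ≤ _ := div_le_div_of_nonneg_right h1 hb0.le
  linarith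

lemma step_low {q : ℕ} (hq : 2 ≤ q) : Real.log (Real.log ((q : ℝ) + 1)) - Real.log (Real.log q) ≤
    1 / ((q : ℝ) * Real.log q) := by
  have hq2 : (2 : ℝ) ≤ q := by exact_mod_cast hq
  set a := Real.log (q : ℝ) with ha
  set b := Real.log ((q : ℝ) + 1) with hb
  have ha0 : 0 < a := Real.log_pos (by linarith)
  have hb0 : 0 < b := Real.log_pos (by linarith)
  have h1 : b - a ≤ 1 / (q : ℝ) := by
    have h2 := Real.log_le_sub_one_of_pos (show 0 < ((q : ℝ) + 1) / q by
      apply div_pos <;> linarith)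
    rw [Real.log_div (by linarith) (by linarith), ← ha, ← hb] at h2
    have h3 : ((q : ℝ) + 1) / q - 1 = 1 / q := by
      have : (q : ℝ) ≠ 0 := by linarith
      field_simp
      ring
    linarith
  have h4 := Real.log_le_sub_one_of_pos (show 0 < b / a by positivity)
  rw [Real.log_div hb0.ne' ha0.ne'] at h4
  have h5 : b / a - 1 = (b - a) / a := by field_simp
  rw [h5] at h4
  have h6 : (b - a) / a ≤ 1 / ((q : ℝ) * a) := by
    calc (b - a) / a ≤ (1 / q) / a := div_le_div_of_nonneg_right h1 ha0.le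
      _ = _ := by field_simp
  linarith

lemma sum_up (n : ℕ) (hn : 2 ≤ n) : ∑ q ∈ Finset.Icc 2 n, 1 / ((q : ℝ) * Real.log q) ≤
      Real.log (Real.log n) - Real.log (Real.log 2) + 1 / (2 * Real.log 2) := by
  induction n, hn using Nat.le_induction with
  | base => simp
  | succ n hn ih =>
    rw [← Finset.insert_Icc_right_eq_Icc_add_one (by omega), Finset.sum_insert (by simp)]
    have h1 := step_up (q := n + 1) (by omega)
    push_cast at h1 ⊢
    have e2 : (n : ℝ) + 1 - 1 = n := by ring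
    rw [e2] at h1
    linarith

lemma sum_low (n : ℕ) (hn : 2 ≤ n) : Real.log (Real.log ((n : ℝ) + 1)) - Real.log (Real.log 2) ≤
    ∑ q ∈ Finset.Icc 2 n, 1 / ((q : ℝ) * Real.log q) := by
  induction n, hn using Nat.le_induction with
  | base =>
    have := step_low (q := 2) le_rfl
    simpa using this
  | succ n hn ih =>
    rw [← Finset.insert_Icc_right_eq_Icc_add_one (by omega), Finset.sum_insert (by simp)]
    have h1 := step_low (q := n + 1) (by omega)
    push_cast at h1 ⊢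
    linarith

lemma sum_abs (n : ℕ) (hn : 2 ≤ n) : |(∑ q ∈ Finset.Icc 2 n, 1 / ((q : ℝ) * Real.log q)) -
    Real.log (Real.log n)| ≤ 2 := by
  have h1 := sum_up n hn
  have h2 := sum_low n hn
  have hn2 : (2 : ℝ) ≤ n := by exact_mod_cast hn
  have hl2 := Real.log_two_gt_d9
  have hl2' := Real.log_two_lt_d9
  have hl0 : 0 < Real.log 2 := by linarith
  have hln : 0 < Real.log n := Real.log_pos (by linarith)
  have h3 : Real.log (Real.log n) ≤ Real.log (Real.log ((n : ℝ) + 1)) :=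
    Real.log_le_log hln (Real.log_le_log (by linarith) (by linarith))
  have h4 : Real.log (Real.log 2) ≤ 0 := Real.log_nonpos hl0.le (by linarith)
  have h5 : 1 - (Real.log 2)⁻¹ ≤ Real.log (Real.log 2) := Real.one_sub_inv_le_log_of_pos hl0
  have h6 : (Real.log 2)⁻¹ ≤ 3 / 2 := by
    rw [inv_le_comm₀ hl0 (by norm_num)]
    norm_num
    linarith
  have h7 : 1 / (2 * Real.log 2) ≤ 3 / 4 := by
    have : 1 / (2 * Real.log 2) = (Real.log 2)⁻¹ / 2 := by field_simp
    rw [this]; linarith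
  rw [abs_le]
  constructor <;> linarith

/-- the sequence `n ^ n` -/
noncomputable def nn (n : ℕ) : ℝ := (n : ℝ) ^ n

lemma log_nn (n : ℕ) : Real.log (nn n) = n * Real.log n := by unfold nn; rw [Real.log_pow]

lemma nn_grow : Grow nn 1 1 := by
  refine ⟨fun n => ?_, one_pos, fun m n hm hmn => ?_⟩
  · unfold nn
    rcases Nat.eq_zero_or_pos n with h | h
    · subst h; norm_num
    · have : (0 : ℝ) < n := by exact_mod_cast h
      positivity
  · rw [log_nn, log_nn]
    have hm0 : (0 : ℝ) < m := by exact_mod_cast hm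
    have h : Real.log m ≤ Real.log n := Real.log_le_log hm0 (by exact_mod_cast hmn.le)
    have : (m : ℝ) * Real.log m ≤ m * Real.log n := mul_le_mul_of_nonneg_left h hm0.le
    linarith

lemma VS_nn (x : ℕ) (hx : 2 ≤ x) : VS nn Set.univ x = ∑ q ∈ Finset.Icc 2 x, 1 / ((q : ℝ) * Real.log q) := by
  classical
  unfold VS
  simp only [Set.mem_univ, Finset.filter_true, log_nn]
  have e : Finset.range (x + 1) = insert 0 (insert 1 (Finset.Icc 2 x)) := by
    ext t
    simp only [Finset.mem_range, Finset.mem_insert, Finset.mem_Icc]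
    omega
  rw [e, Finset.sum_insert (by simp), Finset.sum_insert (by simp)]
  simp

lemma VS_nn_close : ∀ᶠ x : ℕ in atTop, |VS nn Set.univ x - Real.log (Real.log x)| ≤ 2 := by
  filter_upwards [eventually_ge_atTop 2] with x hx
  rw [VS_nn x hx]
  exact sum_abs x hx

lemma loglog_atTop : Tendsto (fun N : ℕ => Real.log (Real.log N)) atTop atTop :=
  Real.tendsto_log_atTop.comp (Real.tendsto_log_atTop.comp tendsto_natCast_atTop_atTop)

lemma VS_nn_atTop : Tendsto (VS nn Set.univ) atTop atTop := shift_atTop VS_nn_close loglog_atTop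

end Pool.Agent.H538.NN
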